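import Pool.Agent.W165.OZ.AS
import Pool.Agent.W165.OZ.LS
import Pool.Agent.W165.OZ.PP
import Pool.Agent.W165.OZ.SI
import Pool.Agent.W165.OZ.DL

/-!
# Simultaneous approximation of odd zeta values: the asymptotic size
-/

open Polynomial Pool.Agent.H337R2 Filter Topology Pool.Agent.W165.OZ

namespace Pool.Agent.TH818.SA

noncomputable section

/-- the logarithmic sum -/
theorem t_ls2 (N n M r : ℕ) (hN : 1 ≤ N) (hn : 1 ≤ n) (hr : 1 ≤ r) (hrM : r ≤ M)
    (hL : 0 ≤ Real.log ((r : ℝ) / (n * N))) :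
    ∑ i ∈ Finset.range r, ((M : ℝ) - i) * (Real.log n - Real.log (MM N i)) ≤
      M * (Real.log n + Real.log ((r : ℝ) / (n * N))) + r * M -
        Real.log ((r : ℝ) / (n * N)) * (r * M - (r : ℝ) ^ 2 / 2) := by
  set lam : ℝ := Real.log ((r : ℝ) / (n * N)) with hlam
  obtain ⟨r', rfl⟩ : ∃ r', r = r' + 1 := ⟨r - 1, by omega⟩
  have hNR : (1 : ℝ) ≤ N := by exact_mod_cast hN
  have hnR : (1 : ℝ) ≤ n := by exact_mod_cast hn
  have hr0 : (0 : ℝ) ≤ r' := by positivity
  have hrR : (r' : ℝ) + 1 ≤ M := by exact_mod_cast hrM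
  have hM0 : (0 : ℝ) ≤ M := by positivity
  rw [Finset.sum_range_succ']
  have t0 : ((M : ℝ) - ((0 : ℕ) : ℝ)) * (Real.log n - Real.log (MM N 0)) = M * Real.log n := by
    have : MM N 0 = 1 := by unfold MM; simp
    rw [this]
    simp
  rw [t0]
  have t1 : ∀ i ∈ Finset.range r', ((M : ℝ) - ((i + 1 : ℕ) : ℝ)) *
      (Real.log n - Real.log (MM N (i + 1))) ≤
      (M : ℝ) * (Real.log ((r' : ℝ) + 1) - Real.log ((i : ℝ) + 1)) - ((M : ℝ) - ((i : ℝ) + 1)) * lam := by
    intro i hi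
    have hi' : i + 1 ≤ r' := by have := Finset.mem_range.1 hi; omega
    have hiR : (i : ℝ) + 1 ≤ r' := by exact_mod_cast hi'
    have hi0 : (0 : ℝ) ≤ i := by positivity
    have e1 : Real.log (((i : ℝ) + 1) / N) ≤ Real.log (MM N (i + 1)) := by
      apply Real.log_le_log (by positivity)
      unfold MM
      push_cast
      exact le_max_right _ _
    have e2 : Real.log n = Real.log ((r' : ℝ) + 1) - lam - Real.log N := by
      rw [hlam]
      push_cast
      rw [Real.log_div (by positivity) (by positivity), Real.log_mul (by positivity) (by positivity)]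
      ring
    rw [Real.log_div (by positivity) (by positivity)] at e1
    have e3 : Real.log n - Real.log (MM N (i + 1)) ≤
        Real.log ((r' : ℝ) + 1) - Real.log ((i : ℝ) + 1) - lam := by
      rw [e2]; linarith
    have e4 : 0 ≤ Real.log ((r' : ℝ) + 1) - Real.log ((i : ℝ) + 1) := by
      have := Real.log_le_log (show (0 : ℝ) < (i : ℝ) + 1 by positivity)
        (show (i : ℝ) + 1 ≤ (r' : ℝ) + 1 by linarith)
      linarith
    push_cast
    have e5 : ((M : ℝ) - ((i : ℝ) + 1)) * (Real.log n - Real.log (MM N (i + 1))) ≤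
        ((M : ℝ) - ((i : ℝ) + 1)) * (Real.log ((r' : ℝ) + 1) - Real.log ((i : ℝ) + 1) - lam) :=
      mul_le_mul_of_nonneg_left e3 (by linarith)
    have e6 : ((M : ℝ) - ((i : ℝ) + 1)) * (Real.log ((r' : ℝ) + 1) - Real.log ((i : ℝ) + 1)) ≤
        (M : ℝ) * (Real.log ((r' : ℝ) + 1) - Real.log ((i : ℝ) + 1)) :=
      mul_le_mul_of_nonneg_right (by linarith) e4
    nlinarith
  have t2 := Finset.sum_le_sum t1
  rw [Finset.sum_sub_distrib, ← Finset.mul_sum, ← Finset.sum_mul] at t2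
  have t3 : ∑ i ∈ Finset.range r', (Real.log ((r' : ℝ) + 1) - Real.log ((i : ℝ) + 1)) ≤ r' + 1 := by
    have e1 : ∑ i ∈ Finset.range r', (Real.log ((r' : ℝ) + 1) - Real.log ((i : ℝ) + 1)) ≤
        ∑ i ∈ Finset.range (r' + 1), (Real.log ((r' : ℝ) + 1) - Real.log ((i : ℝ) + 1)) := by
      rw [Finset.sum_range_succ]
      linarith
    have e2 : ∑ i ∈ Finset.range (r' + 1), (Real.log ((r' : ℝ) + 1) - Real.log ((i : ℝ) + 1)) =
        ((r' + 1 : ℕ) : ℝ) * Real.log ((r' + 1 : ℕ) : ℝ) - Real.log ((r' + 1).factorial : ℝ) := by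
      rw [Finset.sum_sub_distrib, Finset.sum_const, Finset.card_range, nsmul_eq_mul, ls_sumlog]
      push_cast
      ring
    rw [e2] at e1
    have := ls_fact (r' + 1) (by omega)
    push_cast at this e1 ⊢
    linarith
  have t4 : ∀ q : ℕ, ∑ i ∈ Finset.range q, ((M : ℝ) - ((i : ℝ) + 1)) =
      q * M - q * (q + 1) / 2 := by
    intro q
    induction q with
    | zero => simp
    | succ q ih =>
      rw [Finset.sum_range_succ, ih]
      push_cast
      ring
  rw [t4] at t2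
  have t7 : (M : ℝ) * ∑ i ∈ Finset.range r', (Real.log ((r' : ℝ) + 1) - Real.log ((i : ℝ) + 1)) ≤
      M * (r' + 1) := mul_le_mul_of_nonneg_left t3 hM0
  have t8 : 0 ≤ lam * ((r' : ℝ) + 1) := mul_nonneg hL (by positivity)
  have t9 : (M : ℝ) * (Real.log n + lam) + (r' + 1) * M - lam * ((r' + 1) * M - ((r' : ℝ) + 1) ^ 2 / 2) =
      M * (r' + 1) - (r' * M - r' * (r' + 1) / 2) * lam + M * Real.log n + lam * (r' + 1) / 2 := by ring
  push_cast at t2 ⊢
  rw [t9]
  linarith

/-- the exponent -/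
def UU (N h B D : ℕ) : ℝ :=
  (2 - 1 / (2 * (D : ℝ))) * Real.log ((h : ℝ) / (32 * D * N)) - 19 -
    45 * D * ((B : ℝ) * (B + 1) / h * (1 + Real.log B))

theorem t_as2 (N h B D : ℕ) (C : ℝ) (hN : 1 ≤ N) (hB : 1 ≤ B) (hD : 1 ≤ D) (hC : 0 < C)
    (hDN : 64 * D * N ≤ h) :
    ∃ ν0 : ℕ, ∀ ν ≥ ν0, ∀ n m M : ℕ, n = 4 * D * ν → m = h * ν → M = 2 * D * h * ν →
      ∀ r : ℕ, m ≤ 8 * r → r ≤ m → ∀ q : ℕ, 1 ≤ q → Real.log q ≤ h * n * UU N h B D →
      Real.log (Arc N n h C r * ((q : ℝ) ^ r * (∏ i ∈ Finset.range r, (sc n h B i : ℝ) ^ 2) *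
        (PPn n h B : ℝ))) < 0 := by
  have hh64 : 64 ≤ h := by
    have : 1 * 1 ≤ D * N := Nat.mul_le_mul hD hN
    have : 64 * (D * N) ≤ h := by rw [← mul_assoc]; exact hDN
    omega
  have hh : 1 ≤ h := by omega
  have hN' : (1 : ℝ) ≤ N := by exact_mod_cast hN
  have hD' : (1 : ℝ) ≤ D := by exact_mod_cast hD
  have hh' : (64 : ℝ) ≤ h := by exact_mod_cast hh64
  have hB' : (1 : ℝ) ≤ B := by exact_mod_cast hB
  have hDN' : 64 * (D : ℝ) * N ≤ h := by exact_mod_cast hDN
  set lam : ℝ := Real.log ((h : ℝ) / (32 * D * N)) with hlam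
  have hlam0 : 0 ≤ lam := Real.log_nonneg (by
    rw [le_div_iff₀ (by positivity)]
    have : 0 ≤ (D : ℝ) * N := by positivity
    linarith)
  set K0 : ℝ := (5 + 64 * D) * Real.log (h + 1) + |Real.log C| + (2 * h + 4) with hK0
  set K1 : ℝ := (5 + 64 * D) + 64 * D + (2 * h + 4) with hK1
  set K3 : ℝ := (2 * h + 4) * (4 * (B : ℝ) ^ ((3 : ℝ) / 4)) with hK3
  obtain ⟨n1, hn1⟩ := as_growth K0 K1 K3
  refine ⟨max 1 n1, fun ν hν n m M hn hm hM r hr1 hr2 q hq hlq => ?_⟩
  have hν1 : 1 ≤ ν := (le_max_left _ _).trans hν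
  have hnν : ν ≤ n := by
    rw [hn]
    have : 1 * ν ≤ (4 * D) * ν := Nat.mul_le_mul_right ν (by omega)
    omega
  have hn2 : 2 ≤ n := by
    rw [hn]
    have : 1 * 1 ≤ D * ν := Nat.mul_le_mul hD hν1
    have : 4 * D * ν = 4 * (D * ν) := by ring
    omega
  have hne : Even n := ⟨2 * D * ν, by rw [hn]; ring⟩
  obtain ⟨-, hgr⟩ := hn1 n (((le_max_right _ _).trans hν).trans hnν)
  have hnR : (2 : ℝ) ≤ n := by exact_mod_cast hn2
  have hnpos : (0 : ℝ) < n := by linarith
  have hMh : 2 * M = h * n := by rw [hM, hn]; ring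
  have hMm : M = 2 * D * m := by rw [hM, hm]; ring
  have hm1 : 1 ≤ m := by
    rw [hm]
    exact Nat.mul_pos (by omega) (by omega)
  have hr0 : 1 ≤ r := by omega
  have hmM : m ≤ M := by
    rw [hMm]
    have : 1 * m ≤ (2 * D) * m := Nat.mul_le_mul_right m (by omega)
    omega
  have hrM : r ≤ M := hr2.trans hmM
  have hMhR : 2 * (M : ℝ) = h * n := by exact_mod_cast hMh
  have hMmR : (M : ℝ) = 2 * D * m := by exact_mod_cast hMm
  have hr1R : (m : ℝ) ≤ 8 * r := by exact_mod_cast hr1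
  have hrmR : (r : ℝ) ≤ m := by exact_mod_cast hr2
  have hrR0 : (1 : ℝ) ≤ r := by exact_mod_cast hr0
  have hrpos : (0 : ℝ) < r := by linarith
  have hmpos : (0 : ℝ) < m := by linarith
  have hnνR : (n : ℝ) = 4 * D * ν := by rw [hn]; push_cast; ring
  have hmνR : (m : ℝ) = h * ν := by rw [hm]; push_cast; ring
  have hνpos : (0 : ℝ) < ν := by exact_mod_cast hν1
  rw [as_log (N := N) (B := B) hC hq hMh hrM]
  -- the factorial
  have hlm : 0 ≤ Real.log ((m : ℝ) + 1) := Real.log_nonneg (by linarith)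
  have f1 : Real.log (r.factorial : ℝ) ≤ r * Real.log ((m : ℝ) + 1) := by
    have h4 : (r.factorial : ℝ) ≤ ((m : ℝ) + 1) ^ r := by
      have h5 : r.factorial ≤ r ^ r := Nat.factorial_le_pow r
      have h6 : (r.factorial : ℝ) ≤ (r : ℝ) ^ r := by exact_mod_cast h5
      exact h6.trans (pow_le_pow_left₀ hrpos.le (by linarith) r)
    have h5 := Real.log_le_log (by exact_mod_cast r.factorial_pos) h4
    rwa [Real.log_pow] at h5
  have f2 : (r : ℝ) * Real.log C ≤ r * |Real.log C| :=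
    mul_le_mul_of_nonneg_left (le_abs_self _) hrpos.le
  have f3 : (r : ℝ) * Real.log q ≤ r * (h * n * UU N h B D) := mul_le_mul_of_nonneg_left hlq hrpos.le
  -- the sum
  set E : ℝ := (2 * h + 4) * (Real.sqrt ((B : ℝ) * n) * Real.log ((B : ℝ) * n) + Real.log n + 1)
    with hE
  have hlogn : 0 ≤ Real.log n := Real.log_nonneg (by linarith)
  have f4 : ∑ i ∈ Finset.range r, (2 * Real.log (sc n h B i : ℝ) - 4 * ((M : ℝ) - 1 - i) *
        Real.log (MM N i)) ≤
      4 * (∑ i ∈ Finset.range r, ((M : ℝ) - i) * (Real.log n - Real.log (MM N i))) +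
        r * (4 * Real.log ((m : ℝ) + 1) + 8 * (h + 1) * n + E) := by
    have h4 : (r : ℝ) * (4 * Real.log ((m : ℝ) + 1) + 8 * (h + 1) * n + E) =
        ∑ _i ∈ Finset.range r, (4 * Real.log ((m : ℝ) + 1) + 8 * (h + 1) * n + E) := by
      rw [Finset.sum_const, Finset.card_range, nsmul_eq_mul]
    rw [h4, Finset.mul_sum, ← Finset.sum_add_distrib]
    refine Finset.sum_le_sum fun i hi => ?_
    have hi' := Finset.mem_range.mp hi
    have h5 := (t_si t_dl) n h B i hn2 hne hh hB (by omega)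
    have h6 : Real.log (MM N i) ≤ Real.log ((m : ℝ) + 1) := by
      apply Real.log_le_log (lt_of_lt_of_le one_pos (MM_one_le N i))
      unfold MM
      apply max_le (by linarith)
      have h7 : (i : ℝ) ≤ m := by exact_mod_cast (by omega : i ≤ m)
      have h8 : (i : ℝ) / N ≤ i := div_le_self (by positivity) hN'
      linarith
    have h7 : (2 * (h : ℝ) * n - 4 * i) = 4 * ((M : ℝ) - i) := by
      have : 2 * (h : ℝ) * n = 2 * (2 * M) := by rw [hMhR]; ring
      rw [this]; ring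
    rw [h7] at h5
    have h8 : 4 * ((M : ℝ) - 1 - i) * Real.log (MM N i) =
        4 * (((M : ℝ) - i) * Real.log (MM N i)) - 4 * Real.log (MM N i) := by ring
    rw [h8, hE]
    linarith
  -- the logarithm
  set L : ℝ := Real.log ((r : ℝ) / (n * N)) with hL
  have hLlam : lam ≤ L := by
    rw [hlam, hL]
    apply Real.log_le_log (by positivity)
    rw [div_le_div_iff₀ (by positivity) (by positivity)]
    have e1 : (h : ℝ) * (n * N) = 4 * D * N * m := by rw [hnνR, hmνR]; ring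
    rw [e1]
    have e2 : 4 * (D : ℝ) * N * m ≤ 4 * D * N * (8 * r) :=
      mul_le_mul_of_nonneg_left hr1R (by positivity)
    linarith
  have hL0 : 0 ≤ L := hlam0.trans hLlam
  have hLm : L ≤ Real.log ((m : ℝ) + 1) := by
    rw [hL]
    apply Real.log_le_log (by positivity)
    have e1 : (1 : ℝ) ≤ n * N := by nlinarith
    have e2 : (r : ℝ) / (n * N) ≤ r := div_le_self hrpos.le e1
    linarith
  have f5 := t_ls2 N n M r hN (by omega) hr0 hrM hL0
  rw [← hL] at f5
  have f6 := t_pp n h B (by omega) hB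
  -- the main term
  have g1 : lam * (r * M - (r : ℝ) * m / 2) ≤ L * (r * M - (r : ℝ) ^ 2 / 2) := by
    have e1 : (r : ℝ) * M - r * m / 2 ≤ r * M - (r : ℝ) ^ 2 / 2 := by nlinarith
    have e2 : 0 ≤ (r : ℝ) * M - (r : ℝ) ^ 2 / 2 := by
      have : (m : ℝ) ≤ M := by exact_mod_cast hmM
      nlinarith
    calc lam * (r * M - (r : ℝ) * m / 2) ≤ lam * (r * M - (r : ℝ) ^ 2 / 2) :=
          mul_le_mul_of_nonneg_left e1 hlam0
      _ ≤ _ := mul_le_mul_of_nonneg_right hLlam e2
  have g2 : 4 * (lam * (r * M - (r : ℝ) * m / 2)) = r * (h * n * ((2 - 1 / (2 * (D : ℝ))) * lam)) := by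
    have e1 : (m : ℝ) = M / (2 * D) := by rw [hMmR]; field_simp
    rw [e1, ← hMhR]
    field_simp
    ring
  -- the first term
  have g3 : 4 * ((M : ℝ) * (Real.log n + L)) ≤ r * (64 * D * (Real.log n + Real.log ((m : ℝ) + 1))) := by
    have e1 : (M : ℝ) ≤ 16 * D * r := by
      rw [hMmR]
      have : 2 * (D : ℝ) * m ≤ 2 * D * (8 * r) := mul_le_mul_of_nonneg_left hr1R (by positivity)
      linarith
    have e2 : (M : ℝ) * (Real.log n + L) ≤ (16 * D * r) * (Real.log n + Real.log ((m : ℝ) + 1)) :=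
      mul_le_mul e1 (by linarith) (by linarith) (by positivity)
    linarith
  -- the second factor
  set Y : ℝ := (B : ℝ) * (B + 1) / h * (1 + Real.log B) with hY
  have hlB : 0 ≤ Real.log B := Real.log_nonneg hB'
  have hY0 : 0 ≤ Y := by rw [hY]; positivity
  have g4 : (h : ℝ) * Real.log 4 * ((B : ℝ) * (B + 1)) * (n : ℝ) ^ 2 * (1 + Real.log B) ≤
      r * (h * n * (45 * D * Y)) := by
    have e1 : (h : ℝ) * Real.log 4 * ((B : ℝ) * (B + 1)) * (n : ℝ) ^ 2 * (1 + Real.log B) =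
        Real.log 4 * (h * n) * ((h * n) * Y) := by
      rw [hY]
      field_simp
    have e2 : (h : ℝ) * n ≤ 32 * D * r := by
      rw [← hMhR, hMmR]
      have : 4 * (D : ℝ) * m ≤ 4 * D * (8 * r) := mul_le_mul_of_nonneg_left hr1R (by positivity)
      linarith
    have e3 : Real.log 4 * 32 ≤ 45 := by
      have g2 : Real.log 4 = 2 * Real.log 2 := by
        rw [show (4 : ℝ) = 2 ^ 2 by norm_num, Real.log_pow]
        norm_num
      have g3 := Real.log_two_lt_d9
      rw [g2]; linarith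
    have e4 : 0 ≤ Real.log 4 := Real.log_nonneg (by norm_num)
    rw [e1]
    calc Real.log 4 * (h * n) * ((h * n) * Y) ≤ Real.log 4 * (32 * D * r) * ((h * n) * Y) := by
          gcongr
      _ = (Real.log 4 * 32) * (D * r * ((h * n) * Y)) := by ring
      _ ≤ 45 * (D * r * ((h * n) * Y)) := mul_le_mul_of_nonneg_right e3 (by positivity)
      _ = _ := by ring
  -- growth
  have g5 : Real.log ((m : ℝ) + 1) ≤ Real.log (h + 1) + Real.log n := by
    rw [← Real.log_mul (by positivity) hnpos.ne']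
    apply Real.log_le_log (by linarith)
    have e1 : (m : ℝ) ≤ h * n := by
      rw [hmνR]
      apply mul_le_mul_of_nonneg_left _ (by positivity)
      exact_mod_cast hnν
    nlinarith
  have g6 : Real.sqrt ((B : ℝ) * n) * Real.log ((B : ℝ) * n) ≤
      4 * (B : ℝ) ^ ((3 : ℝ) / 4) * (n : ℝ) ^ ((3 : ℝ) / 4) := by
    have := as_sqrt_log (y := (B : ℝ) * n) (by positivity)
    rw [Real.mul_rpow (by linarith) hnpos.le] at this
    linarith
  have g7 : (5 + 64 * D) * Real.log ((m : ℝ) + 1) + |Real.log C| + 64 * D * Real.log n + E ≤ 6 * n := by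
    refine le_trans ?_ hgr
    have e1 : (5 + 64 * (D : ℝ)) * Real.log ((m : ℝ) + 1) ≤ (5 + 64 * D) * (Real.log (h + 1) + Real.log n) :=
      mul_le_mul_of_nonneg_left g5 (by positivity)
    have e2 : (2 * (h : ℝ) + 4) * (Real.sqrt ((B : ℝ) * n) * Real.log ((B : ℝ) * n)) ≤
        (2 * h + 4) * (4 * (B : ℝ) ^ ((3 : ℝ) / 4) * (n : ℝ) ^ ((3 : ℝ) / 4)) :=
      mul_le_mul_of_nonneg_left g6 (by positivity)
    rw [hE, hK0, hK1, hK3]
    linarith
  have g8 : 6 * (n : ℝ) ≤ h * n := mul_le_mul_of_nonneg_right (by linarith) hnpos.le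
  have g9 : 8 * ((h : ℝ) + 1) * n ≤ 9 * (h * n) := by
    have : 8 * ((h : ℝ) + 1) ≤ 9 * h := by linarith
    calc 8 * ((h : ℝ) + 1) * n ≤ (9 * h) * n := mul_le_mul_of_nonneg_right this hnpos.le
      _ = _ := by ring
  have g10 : 4 * ((r : ℝ) * M) = r * (2 * (h * n)) := by rw [← hMhR]; ring
  have hfin : Real.log (r.factorial : ℝ) + r * Real.log C + r * Real.log q +
      ∑ i ∈ Finset.range r, (2 * Real.log (sc n h B i : ℝ) - 4 * ((M : ℝ) - 1 - i) *
        Real.log (MM N i)) + Real.log (PPn n h B) ≤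
      r * (((5 + 64 * D) * Real.log ((m : ℝ) + 1) + |Real.log C| + 64 * D * Real.log n + E) +
        8 * ((h : ℝ) + 1) * n + 2 * (h * n) - 19 * (h * n)) := by
    have e1 : (r : ℝ) * (h * n * UU N h B D) = r * (h * n * ((2 - 1 / (2 * (D : ℝ))) * lam)) -
        r * (19 * (h * n)) - r * (h * n * (45 * D * Y)) := by
      unfold UU
      rw [← hlam, ← hY]
      ring
    rw [e1] at f3
    have e2 : (r : ℝ) * (((5 + 64 * D) * Real.log ((m : ℝ) + 1) + |Real.log C| + 64 * D * Real.log n + E) +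
        8 * ((h : ℝ) + 1) * n + 2 * (h * n) - 19 * (h * n)) =
        r * Real.log ((m : ℝ) + 1) + r * |Real.log C| +
        r * (64 * D * (Real.log n + Real.log ((m : ℝ) + 1))) +
        r * (4 * Real.log ((m : ℝ) + 1) + 8 * (h + 1) * n + E) + r * (2 * (h * n)) -
        r * (19 * (h * n)) := by ring
    rw [e2]
    linarith
  refine lt_of_le_of_lt hfin ?_
  apply mul_neg_of_pos_of_neg hrpos
  have hhn : 0 < (h : ℝ) * n := by positivity
  linarith

end

end Pool.Agent.TH818.SA
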