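import Pool.Agent.TH818.SA.NV2
import Pool.Agent.TH818.SA.AS2

/-!
# Simultaneous approximation of odd zeta values: the size of the perturbation, the choice of parameters
-/

open Polynomial Pool.Agent.H337R2 Filter Topology Pool.Agent.W165.OZ

namespace Pool.Agent.TH818.SA

noncomputable section

theorem t_es (N h D : ℕ) (hN : 1 ≤ N) (hD : 1 ≤ D) (hDN : 64 * D * N ≤ h) (Cc c0 V : ℝ) (hCc : 0 < Cc)
    (hc0 : 0 < c0) (hV : 2 * Real.log ((h : ℝ) / (32 * D * N)) + 13 ≤ V) :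
    ∃ ν0 : ℕ, ∀ ν ≥ ν0, ∀ n m M : ℕ, n = 4 * D * ν → m = h * ν → M = 2 * D * h * ν → 
      ∀ η : ℝ, 0 < η → Real.log η ≤ -(V * (h * (n - 4 * D))) →
      η * Cc * (n : ℝ) ^ 2 * ((8 : ℝ) ^ n / n.factorial) ^ (2 * h) * 16 ^ m * MM N m ^ (4 * M) ≤ c0 := by
  have hh64 : 64 ≤ h := by
    have : 1 * 1 ≤ D * N := Nat.mul_le_mul hD hN
    have : 64 * (D * N) ≤ h := by rw [← mul_assoc]; exact hDN
    omega
  have hN' : (1 : ℝ) ≤ N := by exact_mod_cast hN
  have hD' : (1 : ℝ) ≤ D := by exact_mod_cast hD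
  have hh' : (64 : ℝ) ≤ h := by exact_mod_cast hh64
  have hDN' : 64 * (D : ℝ) * N ≤ h := by exact_mod_cast hDN
  set lam : ℝ := Real.log ((h : ℝ) / (32 * D * N)) with hlam
  set K0 : ℝ := V * (h * (4 * D)) + Real.log Cc - Real.log c0 with hK0
  obtain ⟨n1, hn1⟩ := as_growth K0 2 0
  refine ⟨max 1 n1, fun ν hν n m M hn hm hM η hη hlη => ?_⟩
  have hν1 : 1 ≤ ν := (le_max_left _ _).trans hν
  have hnν : ν ≤ n := by
    rw [hn]
    have : 1 * ν ≤ (4 * D) * ν := Nat.mul_le_mul_right ν (by omega)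
    omega
  obtain ⟨hn1', hgr⟩ := hn1 n (((le_max_right _ _).trans hν).trans hnν)
  have hnR : (1 : ℝ) ≤ n := by exact_mod_cast hn1'
  have hnpos : (0 : ℝ) < n := by linarith
  have hνpos : (0 : ℝ) < ν := by exact_mod_cast hν1
  have hnνR : (n : ℝ) = 4 * D * ν := by rw [hn]; push_cast; ring
  have hmνR : (m : ℝ) = h * ν := by rw [hm]; push_cast; ring
  have hMhR : 4 * (M : ℝ) = 2 * (h * n) := by rw [hM, hn]; push_cast; ring
  -- the maximum
  have hMM : MM N m = (n : ℝ) * 8 * ((h : ℝ) / (32 * D * N)) := by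
    have e1 : (m : ℝ) / N = (n : ℝ) * 8 * ((h : ℝ) / (32 * D * N)) := by
      rw [hmνR, hnνR]
      field_simp
      ring
    unfold MM
    rw [← e1]
    apply max_eq_right
    rw [le_div_iff₀ (by linarith), hmνR]
    have e2 : (N : ℝ) ≤ h := by nlinarith
    have e3 : (1 : ℝ) ≤ ν := by exact_mod_cast hν1
    nlinarith
  have hlMM : Real.log (MM N m) = Real.log n + Real.log 8 + lam := by
    rw [hMM, Real.log_mul (by positivity) (by positivity), Real.log_mul (by positivity) (by norm_num)]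
  have hMMpos : 0 < MM N m := by rw [hMM]; positivity
  have hfpos : (0 : ℝ) < (n.factorial : ℝ) := by exact_mod_cast n.factorial_pos
  have hpos : 0 < η * Cc * (n : ℝ) ^ 2 * ((8 : ℝ) ^ n / n.factorial) ^ (2 * h) * 16 ^ m *
      MM N m ^ (4 * M) := by positivity
  rw [← Real.log_le_log_iff hpos hc0]
  rw [Real.log_mul (by positivity) (by positivity), Real.log_mul (by positivity) (by positivity),
    Real.log_mul (by positivity) (by positivity), Real.log_mul (by positivity) (by positivity),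
    Real.log_mul (by positivity) (by positivity), Real.log_pow, Real.log_pow, Real.log_pow, Real.log_pow,
    Real.log_div (by positivity) (by positivity), Real.log_pow, hlMM]
  have hf := ls_fact n hn1'
  have hl8 : Real.log 8 = 3 * Real.log 2 := by
    rw [show (8 : ℝ) = 2 ^ 3 by norm_num, Real.log_pow]; norm_num
  have hl16 : Real.log 16 = 4 * Real.log 2 := by
    rw [show (16 : ℝ) = 2 ^ 4 by norm_num, Real.log_pow]; norm_num
  have hl2 := Real.log_two_lt_d9
  have hl2p : 0 < Real.log 2 := Real.log_pos (by norm_num)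
  have hhn : 0 < (h : ℝ) * n := by positivity
  have hV2 : V * (h * (n - 4 * D)) = V * (h * n) - V * (h * (4 * D)) := by ring
  rw [hV2] at hlη
  have hV3 : (2 * lam + 13) * (h * n) ≤ V * (h * n) := mul_le_mul_of_nonneg_right hV hhn.le
  push_cast
  have e1 : 2 * (h : ℝ) * (n * Real.log 8 - Real.log n.factorial) ≤
      2 * h * (n * Real.log 8 - (n * Real.log n - n)) :=
    mul_le_mul_of_nonneg_left (by linarith) (by positivity)
  have e2 : (m : ℝ) * Real.log 16 ≤ (h * n) * Real.log 2 := by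
    rw [hl16]
    have e3 : (m : ℝ) * 4 ≤ h * n := by
      rw [hmνR, hnνR]
      have : (h : ℝ) * ν * 4 * 1 ≤ h * ν * 4 * D := mul_le_mul_of_nonneg_left hD' (by positivity)
      linarith
    have := mul_le_mul_of_nonneg_right e3 hl2p.le
    linarith
  rw [hMhR, hl8]
  rw [hl8] at e1
  have e4 : (h * n) * (13 * Real.log 2) ≤ ((h : ℝ) * n) * 9.1 :=
    mul_le_mul_of_nonneg_left (by norm_num at hl2 ⊢; linarith) hhn.le
  have e5 : 6 * (n : ℝ) ≤ (6 / 64) * (h * n) := by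
    have : 64 * (n : ℝ) ≤ h * n := mul_le_mul_of_nonneg_right hh' hnpos.le
    linarith
  rw [zero_mul, add_zero, hK0] at hgr
  have e6 : 2 * (h : ℝ) * (n * (3 * Real.log 2) - (n * Real.log n - n)) =
      6 * ((h * n) * Real.log 2) - 2 * ((h * n) * Real.log n) + 2 * (h * n) := by ring
  rw [e6] at e1
  have e7 : 2 * ((h : ℝ) * n) * (Real.log n + 3 * Real.log 2 + lam) =
      2 * ((h * n) * Real.log n) + 6 * ((h * n) * Real.log 2) + 2 * ((h * n) * lam) := by ring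
  rw [e7]
  have e8 : (2 * lam + 13) * (h * n) = 2 * ((h * n) * lam) + 13 * (h * n) := by ring
  rw [e8] at hV3
  have e9 : (h * n) * (13 * Real.log 2) = 13 * (((h : ℝ) * n) * Real.log 2) := by ring
  rw [e9] at e4
  linarith

/-- the choice of the parameters -/
theorem t_fi2 : ∃ s0 : ℕ, ∀ s ≥ s0, ∀ D : ℕ, 1 ≤ D →
  (D : ℝ) ≤ (1 / 1000) * Real.log (Real.log s) → ∃ h B : ℕ,
  2 * h ≤ s ∧ 1 ≤ B ∧ 32 * D * (B * (B + 1)) ≤ h ∧
  (1 / 1000) / D * Real.sqrt (s * Real.log (Real.log s) / Real.log s) ≤ B ∧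
  D * (52 + 90 * D * ((B : ℝ) * (B + 1) / h * (1 + Real.log B))) ≤
    Real.log ((h : ℝ) / (16 * D * (B * (B + 1)))) := by
  obtain ⟨c, hc⟩ : ∃ c : ℝ, c = 1 / 1000 := ⟨_, rfl⟩
  have hc0 : 0 < c := by rw [hc]; norm_num
  rw [← hc]
  have e1 : ∀ᶠ s : ℕ in atTop, Real.log s * Real.log s ≤ s := by
    have h1 := (Real.isLittleO_pow_log_id_atTop (n := 2)).bound (show (0 : ℝ) < 1 by norm_num)
    have h2 := (tendsto_natCast_atTop_atTop (R := ℝ)).eventually h1
    filter_upwards [h2] with s hs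
    have hs' : ‖Real.log (s : ℝ) ^ 2‖ ≤ 1 * ‖(s : ℝ)‖ := by simpa using hs
    rw [one_mul, Real.norm_eq_abs, Real.norm_eq_abs, abs_of_nonneg (by positivity : (0 : ℝ) ≤ (s : ℝ)),
      abs_of_nonneg (sq_nonneg _), sq] at hs'
    exact hs'
  have e2 : ∀ᶠ s : ℕ in atTop, 3 ≤ Real.log s :=
    (Real.tendsto_log_atTop.comp tendsto_natCast_atTop_atTop).eventually_ge_atTop 3
  obtain ⟨s0, hs0⟩ := eventually_atTop.1 (e1.and e2)
  refine ⟨s0, fun s hs D hD hDL => ?_⟩
  obtain ⟨h1, h2⟩ := hs0 s hs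
  obtain ⟨L1, hL1⟩ : ∃ L, L = Real.log s := ⟨_, rfl⟩
  obtain ⟨L2, hL2⟩ : ∃ L, L = Real.log L1 := ⟨_, rfl⟩
  rw [← hL1] at h1 h2 hDL ⊢
  rw [← hL2] at hDL ⊢
  have hs2 : (4 : ℝ) ≤ s := by
    by_contra hcon
    push Not at hcon
    have hsp : (0 : ℝ) < s := by
      rcases Nat.eq_zero_or_pos s with h | h
      · subst h
        simp at hL1
        linarith
      · exact_mod_cast h
    have := Real.log_le_sub_one_of_pos hsp
    rw [← hL1] at this
    linarith
  have hs4 : 4 ≤ s := by exact_mod_cast hs2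
  have hL2p : 0 < L2 := by
    rw [hL2]
    exact Real.log_pos (by linarith)
  have hL21 : L2 ≤ L1 := by
    rw [hL2]
    have := Real.log_le_sub_one_of_pos (show 0 < L1 by linarith)
    linarith
  have hD1 : (1 : ℝ) ≤ D := by exact_mod_cast hD
  have hL1p : 0 < L1 := by linarith
  obtain ⟨x, hx⟩ : ∃ x, x = (s : ℝ) * L2 / L1 / (D : ℝ) ^ 2 := ⟨_, rfl⟩
  have hsx : c / D * Real.sqrt ((s : ℝ) * L2 / L1) = c * Real.sqrt x := by
    rw [hx, Real.sqrt_div' ((s : ℝ) * L2 / L1) (show (0 : ℝ) ≤ (D : ℝ) ^ 2 by positivity),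
      Real.sqrt_sq (by positivity)]
    ring
  rw [hsx]
  have hxp : 0 < x := by
    rw [hx]
    positivity
  have hx1 : (1 / c) ^ 2 ≤ x := by
    rw [hx, le_div_iff₀ (by positivity), le_div_iff₀ hL1p]
    have h3 : (D : ℝ) ^ 2 ≤ (c * L2) ^ 2 := pow_le_pow_left₀ (by positivity) hDL 2
    have h4 : L2 * L1 ≤ s := (mul_le_mul_of_nonneg_right hL21 hL1p.le).trans h1
    calc (1 / c) ^ 2 * (D : ℝ) ^ 2 * L1 ≤ (1 / c) ^ 2 * (c * L2) ^ 2 * L1 := by gcongr
      _ = (L2 * L1) * L2 := by field_simp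
      _ ≤ s * L2 := mul_le_mul_of_nonneg_right h4 hL2p.le
  have hsq : 1 / c ≤ Real.sqrt x := Real.le_sqrt_of_sq_le hx1
  have hcs : 1 ≤ c * Real.sqrt x := by
    calc 1 = c * (1 / c) := by field_simp
      _ ≤ _ := mul_le_mul_of_nonneg_left hsq hc0.le
  obtain ⟨B, hB⟩ : ∃ B, B = ⌈c * Real.sqrt x⌉₊ := ⟨_, rfl⟩
  have hB1 : c * Real.sqrt x ≤ B := by
    rw [hB]
    exact Nat.le_ceil _
  have hB2 : (B : ℝ) ≤ 2 * (c * Real.sqrt x) := by
    have := (Nat.ceil_lt_add_one (show 0 ≤ c * Real.sqrt x by positivity)).le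
    rw [← hB] at this
    linarith
  have hB3 : (1 : ℝ) ≤ B := hcs.trans hB1
  have hB4 : (B : ℝ) * (B + 1) ≤ 8 * c ^ 2 * x := by
    have h3 : (B : ℝ) * (B + 1) ≤ 2 * (B : ℝ) ^ 2 := by nlinarith
    have h4 : (B : ℝ) ^ 2 ≤ (2 * (c * Real.sqrt x)) ^ 2 :=
      pow_le_pow_left₀ (by linarith) hB2 2
    have h5 : (2 * (c * Real.sqrt x)) ^ 2 = 4 * c ^ 2 * x := by
      rw [mul_pow, mul_pow, Real.sq_sqrt hxp.le]
      ring
    linarith
  obtain ⟨h, hh⟩ : ∃ h, h = s / 2 := ⟨_, rfl⟩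
  have hh1 : 2 * h ≤ s := by omega
  have hh2 : (s : ℝ) / 4 ≤ h := by
    have h3 : s ≤ 4 * h := by omega
    have h4 : (s : ℝ) ≤ 4 * h := by exact_mod_cast h3
    linarith
  have hhp : (0 : ℝ) < h := by linarith
  -- the quotient
  have hy : (B : ℝ) * (B + 1) / h ≤ 32 * c ^ 2 * L2 / ((D : ℝ) ^ 2 * L1) := by
    rw [div_le_div_iff₀ hhp (by positivity)]
    have h3 : (8 * c ^ 2 * x) * ((D : ℝ) ^ 2 * L1) = 8 * c ^ 2 * (s * L2) := by
      rw [hx]
      field_simp
    calc (B : ℝ) * (B + 1) * ((D : ℝ) ^ 2 * L1) ≤ (8 * c ^ 2 * x) * ((D : ℝ) ^ 2 * L1) :=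
          mul_le_mul_of_nonneg_right hB4 (by positivity)
      _ = 32 * c ^ 2 * L2 * (s / 4) := by rw [h3]; ring
      _ ≤ 32 * c ^ 2 * L2 * h := mul_le_mul_of_nonneg_left hh2 (by positivity)
  have hDy : D * ((B : ℝ) * (B + 1) / h) ≤ 32 * c ^ 2 * (L2 / L1) := by
    calc D * ((B : ℝ) * (B + 1) / h) ≤ D * (32 * c ^ 2 * L2 / ((D : ℝ) ^ 2 * L1)) :=
          mul_le_mul_of_nonneg_left hy (by positivity)
      _ = (32 * c ^ 2 * (L2 / L1)) * (1 / D) := by field_simp
      _ ≤ (32 * c ^ 2 * (L2 / L1)) * 1 := by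
          apply mul_le_mul_of_nonneg_left _ (by positivity)
          rw [div_le_one (by positivity)]
          exact hD1
      _ = _ := mul_one _
  have hyp : 0 < (B : ℝ) * (B + 1) / h := by positivity
  have h32 : 32 * D * (B * (B + 1)) ≤ h := by
    have h3 : L2 / L1 ≤ 1 := by
      rw [div_le_one hL1p]
      exact hL21
    have h4 : D * ((B : ℝ) * (B + 1) / h) ≤ 1 / 32 := by
      refine hDy.trans ?_
      have : 32 * c ^ 2 * (L2 / L1) ≤ 32 * c ^ 2 * 1 := mul_le_mul_of_nonneg_left h3 (by positivity)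
      refine this.trans ?_
      rw [hc]
      norm_num
    rw [← mul_div_assoc, div_le_iff₀ hhp] at h4
    have h5 : (32 : ℝ) * D * (B * (B + 1)) ≤ h := by linarith
    exact_mod_cast h5
  have hBs : (B : ℝ) ≤ s := by
    have h3 : B ≤ s := by
      have h4 : B * 1 ≤ B * (B + 1) := Nat.mul_le_mul_left B (by omega)
      have h5 : 1 * (B * (B + 1)) ≤ 32 * D * (B * (B + 1)) := Nat.mul_le_mul_right _ (by omega)
      omega
    exact_mod_cast h3
  have hlB : 1 + Real.log B ≤ 2 * L1 := by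
    have h3 := Real.log_le_log (by linarith) hBs
    rw [← hL1] at h3
    linarith
  have hlB0 : 0 ≤ 1 + Real.log B := by
    have := Real.log_nonneg hB3
    linarith
  refine ⟨h, B, hh1, by exact_mod_cast hB3, h32, hB1, ?_⟩
  have hleft : D * (52 + 90 * D * ((B : ℝ) * (B + 1) / h * (1 + Real.log B))) ≤ L2 / 2 := by
    have h3 : ((B : ℝ) * (B + 1) / h) * (1 + Real.log B) ≤
        (32 * c ^ 2 * L2 / ((D : ℝ) ^ 2 * L1)) * (2 * L1) :=
      mul_le_mul hy hlB hlB0 (by positivity)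
    calc D * (52 + 90 * D * ((B : ℝ) * (B + 1) / h * (1 + Real.log B))) ≤
          D * (52 + 90 * D * ((32 * c ^ 2 * L2 / ((D : ℝ) ^ 2 * L1)) * (2 * L1))) := by gcongr
      _ = 52 * D + 5760 * c ^ 2 * L2 := by field_simp; ring
      _ ≤ 52 * (c * L2) + 5760 * c ^ 2 * L2 := by linarith
      _ ≤ L2 / 2 := by
        rw [hc]
        norm_num
        linarith
  have hright : L2 / 2 ≤ Real.log ((h : ℝ) / (16 * D * (B * (B + 1)))) := by
    have h4 : L1 / L2 ≤ (h : ℝ) / (16 * D * (B * (B + 1))) := by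
      rw [div_le_div_iff₀ hL2p (by positivity)]
      rw [← mul_div_assoc, div_le_iff₀ hhp] at hDy
      have h5 : L1 * (16 * D * (B * (B + 1))) = 16 * L1 * (D * ((B : ℝ) * (B + 1))) := by ring
      rw [h5]
      have h6 : 16 * L1 * (D * ((B : ℝ) * (B + 1))) ≤ 16 * L1 * (32 * c ^ 2 * (L2 / L1) * h) :=
        mul_le_mul_of_nonneg_left hDy (by positivity)
      refine h6.trans ?_
      have h7 : 16 * L1 * (32 * c ^ 2 * (L2 / L1) * h) = (512 * c ^ 2) * (h * L2) := by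
        field_simp
        ring
      rw [h7]
      have h8 : 512 * c ^ 2 ≤ 1 := by rw [hc]; norm_num
      have h9 : 0 ≤ (h : ℝ) * L2 := by positivity
      nlinarith
    have h5 := Real.log_le_log (by positivity) h4
    rw [Real.log_div hL1p.ne' hL2p.ne', ← hL2] at h5
    have h6 : Real.log L2 ≤ L2 / 2 := by
      have h7 := Real.log_le_sub_one_of_pos (show 0 < L2 / 2 by positivity)
      rw [Real.log_div hL2p.ne' (by norm_num)] at h7
      have h8 := Real.log_two_lt_d9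
      linarith
    linarith
  linarith

end

end Pool.Agent.TH818.SA
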