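import Pool.Agent.W165.OZ.NU

/-!
# Simultaneous approximation of odd zeta values: the numerical comparison
-/

open Real Pool.Agent.W165.OZ

namespace Pool.Agent.TH818.SA

open NU in
theorem t_nu2 (N : ℕ) (δ c1 c2 : ℝ) (hN : 1 ≤ N) (hδ : 0 < δ) (hδ1 : δ ≤ 1) (hc1 : 0 < c1) (hc2 : 0 < c2) :
    ∃ m0 : ℕ, ∀ m ≥ m0, ∀ n M h r0 : ℕ, 16 * N * n ≤ m → m ≤ M → 2 * M = h * n → r0 = (m + 7) / 8 →
    (r0 : ℝ) * ((4 * (N : ℝ) ^ 2 * c2 * (MM N m ^ (2 * (2 * M - m - r0)))⁻¹) *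
      (2 + (r0 : ℝ) / N + n) ^ (2 * h * n) /
      (c1 * (δ ^ (6 * N) * (((m - 1).factorial : ℝ) ^ 2 / (6 * (N : ℝ) ^ 2) ^ (m - 1))) *
        (δ ^ (6 * N) * (((r0 - 1).factorial : ℝ) ^ 2 / (6 * (N : ℝ) ^ 2) ^ (r0 - 1))))) < 1 := by
  have hN' : (1 : ℝ) ≤ N := by exact_mod_cast hN
  have hNpos : (0 : ℝ) < N := by linarith
  set K : ℝ := log (4 * (N : ℝ) ^ 2 * c2) - log c1 - 12 * N * log δ + 7 / 8 * (2 + 2 * log 8 + log 6)
    with hK
  obtain ⟨m0, hm0⟩ := growth K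
  refine ⟨max m0 (240 * N + 8), ?_⟩
  intro m hm n M h r0 hmn hmM hMh hr0
  have hn1 : m0 ≤ m := le_trans (le_max_left _ _) hm
  have hmN : 240 * N + 8 ≤ m := le_trans (le_max_right _ _) hm
  have hm1 : 1 ≤ m := by omega
  have hr1 : 1 ≤ r0 := by omega
  have hrm : r0 ≤ m := by omega
  have hr8 : m ≤ 8 * r0 := by omega
  have hr8' : 8 * r0 ≤ m + 7 := by omega
  have hmR : (240 * N + 8 : ℝ) ≤ m := by exact_mod_cast hmN
  have hmpos : (0 : ℝ) < m := by linarith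
  have hrpos : (0 : ℝ) < r0 := by exact_mod_cast hr1
  have hr8R : (m : ℝ) ≤ 8 * r0 := by exact_mod_cast hr8
  have hr8R' : (8 : ℝ) * r0 ≤ m + 7 := by exact_mod_cast hr8'
  have hrmR : (r0 : ℝ) ≤ m := by exact_mod_cast hrm
  have hnR : 16 * (N : ℝ) * n ≤ m := by exact_mod_cast hmn
  have hmMR : (m : ℝ) ≤ M := by exact_mod_cast hmM
  -- the maximum
  have hMM : MM N m = (m : ℝ) / N := by
    unfold MM
    apply max_eq_right
    rw [le_div_iff₀ hNpos]
    linarith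
  -- the big base
  have hbase : 2 + (r0 : ℝ) / N + n ≤ (m : ℝ) / (5 * N) := by
    have e1 : (r0 : ℝ) / N ≤ (m + 7) / 8 / N := by
      apply div_le_div_of_nonneg_right _ hNpos.le
      linarith
    have e2 : (n : ℝ) ≤ m / (16 * N) := by
      rw [le_div_iff₀ (by positivity)]; linarith
    have e3 : (m + 7 : ℝ) / 8 / N = m / (8 * N) + 7 / (8 * N) := by
      field_simp
    have e4 : (7 : ℝ) / (8 * N) ≤ 1 := by
      rw [div_le_one (by positivity)]; linarith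
    have e5 : (m : ℝ) / (5 * N) = m / (8 * N) + m / (16 * N) + m / (80 * N) := by
      field_simp; ring
    have e6 : (3 : ℝ) ≤ m / (80 * N) := by
      rw [le_div_iff₀ (by positivity)]; linarith
    linarith
  have hbpos : 0 < 2 + (r0 : ℝ) / N + n := by positivity
  have h4m : 2 * h * n = 4 * M := by
    have : 2 * h * n = 2 * (h * n) := by ring
    omega
  have hMMpos : 0 < MM N m := by rw [hMM]; positivity
  have hfm : (0 : ℝ) < ((m - 1).factorial : ℝ) := by exact_mod_cast Nat.factorial_pos _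
  have hfr : (0 : ℝ) < ((r0 - 1).factorial : ℝ) := by exact_mod_cast Nat.factorial_pos _
  -- logarithms of the pieces
  have hX1 : (0 : ℝ) < 4 * (N : ℝ) ^ 2 * c2 := by positivity
  have hX2 : (0 : ℝ) < (MM N m ^ (2 * (2 * M - m - r0)))⁻¹ := by positivity
  have hX3 : (0 : ℝ) < (2 + (r0 : ℝ) / N + n) ^ (2 * h * n) := by positivity
  have hD : (0 : ℝ) < δ ^ (6 * N) := by positivity
  have hF1 : (0 : ℝ) < ((m - 1).factorial : ℝ) ^ 2 := by positivity
  have hF2 : (0 : ℝ) < ((r0 - 1).factorial : ℝ) ^ 2 := by positivity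
  have hG1 : (0 : ℝ) < (6 * (N : ℝ) ^ 2) ^ (m - 1) := by positivity
  have hG2 : (0 : ℝ) < (6 * (N : ℝ) ^ 2) ^ (r0 - 1) := by positivity
  have hX : 0 < 4 * (N : ℝ) ^ 2 * c2 * (MM N m ^ (2 * (2 * M - m - r0)))⁻¹ *
      (2 + (r0 : ℝ) / N + n) ^ (2 * h * n) := by positivity
  have hY1 : 0 < c1 * (δ ^ (6 * N) * (((m - 1).factorial : ℝ) ^ 2 / (6 * (N : ℝ) ^ 2) ^ (m - 1))) := by
    positivity
  have hY2 : 0 < δ ^ (6 * N) * (((r0 - 1).factorial : ℝ) ^ 2 / (6 * (N : ℝ) ^ 2) ^ (r0 - 1)) := by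
    positivity
  rw [← Real.log_neg_iff (mul_pos hrpos (div_pos hX (mul_pos hY1 hY2)))]
  rw [Real.log_mul hrpos.ne' (div_pos hX (mul_pos hY1 hY2)).ne',
    Real.log_div hX.ne' (mul_pos hY1 hY2).ne', Real.log_mul hY1.ne' hY2.ne',
    Real.log_mul (mul_pos hX1 hX2).ne' hX3.ne', Real.log_mul hX1.ne' hX2.ne',
    Real.log_mul hc1.ne' (mul_pos hD (div_pos hF1 hG1)).ne',
    Real.log_mul hD.ne' (div_pos hF1 hG1).ne', Real.log_mul hD.ne' (div_pos hF2 hG2).ne',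
    Real.log_div hF1.ne' hG1.ne', Real.log_div hF2.ne' hG2.ne', Real.log_inv,
    Real.log_pow, Real.log_pow, Real.log_pow, Real.log_pow, Real.log_pow, Real.log_pow, Real.log_pow,
    h4m, hMM]
  have hc_mr : ((2 * (2 * M - m - r0) : ℕ) : ℝ) = 2 * (2 * (M : ℝ) - m - r0) := by
    have e1 : m ≤ 2 * M := by omega
    have e2 : r0 ≤ 2 * M - m := by omega
    push_cast [Nat.cast_sub e2, Nat.cast_sub e1]
    ring
  have hc_m1 : ((m - 1 : ℕ) : ℝ) = (m : ℝ) - 1 := by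
    push_cast [Nat.cast_sub hm1]; ring
  have hc_r1 : ((r0 - 1 : ℕ) : ℝ) = (r0 : ℝ) - 1 := by
    push_cast [Nat.cast_sub hr1]; ring
  have hc_4m : ((4 * M : ℕ) : ℝ) = 4 * (M : ℝ) := by push_cast; ring
  have hc_6N : ((6 * N : ℕ) : ℝ) = 6 * (N : ℝ) := by push_cast; ring
  rw [hc_mr, hc_m1, hc_r1, hc_4m, hc_6N]
  -- bounds
  have hlogm : 0 ≤ log (m : ℝ) := Real.log_nonneg (by linarith)
  have hlogr : log (r0 : ℝ) ≤ log m := Real.log_le_log hrpos hrmR
  have hlogr' : log (m : ℝ) ≤ log 8 + log r0 := by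
    rw [← Real.log_mul (by norm_num) hrpos.ne']
    exact Real.log_le_log hmpos hr8R
  have hlogN : 0 ≤ log (N : ℝ) := Real.log_nonneg hN'
  have hlog6N : log (6 * (N : ℝ) ^ 2) = log 6 + 2 * log N := by
    rw [Real.log_mul (by norm_num) (by positivity), Real.log_pow]; norm_num
  have hlog6 : 0 ≤ log (6 : ℝ) := Real.log_nonneg (by norm_num)
  have hlog8 : 0 ≤ log (8 : ℝ) := Real.log_nonneg (by norm_num)
  have hlog5 : 0 ≤ log (5 : ℝ) := Real.log_nonneg (by norm_num)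
  have hb : log (2 + (r0 : ℝ) / N + n) ≤ log m - (log 5 + log N) := by
    have := Real.log_le_log hbpos hbase
    rwa [Real.log_div hmpos.ne' (by positivity), Real.log_mul (by norm_num) hNpos.ne'] at this
  have hmNlog : log ((m : ℝ) / N) = log m - log N := Real.log_div hmpos.ne' hNpos.ne'
  have hfm' := log_fact_pred m hm1
  have hfr' := log_fact_pred r0 hr1
  have hfinal := hm0 m hn1
  rw [hlog6N, hmNlog]
  have p1 : 4 * (M : ℝ) * log (2 + (r0 : ℝ) / N + n) ≤ 4 * M * (log m - (log 5 + log N)) :=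
    mul_le_mul_of_nonneg_left hb (by positivity)
  have p2 : (r0 : ℝ) * log m ≤ r0 * (log 8 + log r0) :=
    mul_le_mul_of_nonneg_left hlogr' hrpos.le
  have p3 : (r0 : ℝ) * (2 + 2 * log 8 + log 6) ≤ (m / 8 + 7 / 8) * (2 + 2 * log 8 + log 6) :=
    mul_le_mul_of_nonneg_right (by linarith) (by positivity)
  have hl8 : log (8 : ℝ) = 3 * log 2 := by
    rw [show (8 : ℝ) = 2 ^ 3 by norm_num, Real.log_pow]; norm_num
  have hl6 : log (6 : ℝ) = log 2 + log 3 := by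
    rw [show (6 : ℝ) = 2 * 3 by norm_num, Real.log_mul (by norm_num) (by norm_num)]
  have hcb := const_bound
  have p4 : (m : ℝ) * (26 + 15 * log 2 + 9 * log 3) ≤ m * (32 * log 5) :=
    mul_le_mul_of_nonneg_left hcb hmpos.le
  have p5 : (m : ℝ) * log 5 ≤ M * log 5 := mul_le_mul_of_nonneg_right hmMR hlog5
  rw [hK] at hfinal
  rw [hl8, hl6] at p3 hfinal
  rw [hl8] at p2
  rw [hl6] at hlog6
  rw [hl6]
  push_cast
  linarith [hfinal, p1, p2, p3, p4, p5, hfm', hfr', hlogr, hlogN, hlog6]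

end Pool.Agent.TH818.SA
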