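import Pool.Agent.TH818.SA.Pert
import Pool.Agent.W165.OZ.Stm3

/-!
# Simultaneous approximation of periodic Dirichlet series: the perturbation of the moments
-/

open Polynomial Pool.Agent.H337R2 Filter Topology Pool.Agent.W165.OZ

namespace Pool.Agent.TH818.SA

noncomputable section

open CB

lemma pa_boundE (n h e k i : ℕ) (hk : k < n) :
    |pa (sP n) (mP h) (numE n (X ^ e)) k i| ≤
      2 ^ (2 * h) * (((n : ℚ) ^ 2) ^ e * ((8 : ℚ) ^ n / n.factorial) ^ (2 * h)) := by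
  have hAB : AB (((n : ℚ) ^ 2) ^ e * ((8 : ℚ) ^ n / n.factorial) ^ (2 * h))
      (TS (-(k : ℚ)) (numE n (X ^ e)) * VV ((sP n).erase k) (mP h) (-(k : ℚ))) := by
    refine AB.mul ?_ (AB_VV n h k hk)
    unfold numE
    rw [Polynomial.pow_comp, Polynomial.X_comp, map_pow]
    exact (AB_yp n k hk).pow e
  have hnn := hAB.nonneg
  unfold pa
  split_ifs
  · unfold pfc
    refine (hAB.coeff_le _).trans ?_
    apply mul_le_mul_of_nonneg_right _ hnn
    apply pow_le_pow_right₀ (by norm_num)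
    have hmP : mP h k = 2 * h := rfl
    omega
  · rw [abs_zero]
    positivity

lemma rhoP_boundE (n h e i : ℕ) (hn : 1 ≤ n) :
    |rhoP n h (numE n (X ^ e)) i| ≤
      (n : ℚ) ^ 2 * 2 ^ (2 * h) * ((8 : ℚ) ^ n / n.factorial) ^ (2 * h) * ((n : ℚ) ^ 2) ^ e := by
  unfold rhoP
  refine (Finset.abs_sum_le_sum_abs _ _).trans ?_
  refine (Finset.sum_le_sum fun k hk => pa_boundE n h e k i (Finset.mem_range.1 hk)).trans ?_
  rw [Finset.sum_const, Finset.card_range, nsmul_eq_mul]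
  have h1 : (n : ℚ) ≤ (n : ℚ) ^ 2 := by
    have : (1 : ℚ) ≤ n := by exact_mod_cast hn
    nlinarith
  calc (n : ℚ) * (2 ^ (2 * h) * (((n : ℚ) ^ 2) ^ e * ((8 : ℚ) ^ n / n.factorial) ^ (2 * h)))
      ≤ (n : ℚ) ^ 2 * (2 ^ (2 * h) * (((n : ℚ) ^ 2) ^ e * ((8 : ℚ) ^ n / n.factorial) ^ (2 * h))) :=
        mul_le_mul_of_nonneg_right h1 (by positivity)
    _ = _ := by ring

theorem moA_pert (a : ℕ → ℤ) (n h B : ℕ) (hn : 1 ≤ n) (w : ℕ → ℤ) (z z' : ℕ → ℝ) (η : ℝ)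
    (hz : ∀ i ∈ Finset.Icc 1 (2 * h), WW B w i ≠ 0 → |z i - z' i| ≤ η) (k : ℕ) :
    |moA a n h B w z k - moA a n h B w z' k| ≤ Ep n h B w η * ((n : ℝ) ^ 2) ^ k := by
  have e1 : moA a n h B w z k - moA a n h B w z' k =
      ∑ i ∈ Finset.Icc 1 (2 * h), ((rhoP n h (numE n (X ^ k)) i : ℚ) : ℝ) * (WW B w i : ℝ) *
        (z i - z' i) := by
    unfold moA LaA
    rw [← Finset.sum_sub_distrib]
    refine Finset.sum_congr rfl fun i _ => ?_
    simp only [eq_ratCast, Rat.cast_mul, Rat.cast_intCast]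
    ring
  rw [e1]
  refine (Finset.abs_sum_le_sum_abs _ _).trans ?_
  have e2 : ∀ i ∈ Finset.Icc 1 (2 * h), |((rhoP n h (numE n (X ^ k)) i : ℚ) : ℝ) * (WW B w i : ℝ) *
        (z i - z' i)| ≤ ((n : ℝ) ^ 2 * 2 ^ (2 * h) * ((8 : ℝ) ^ n / n.factorial) ^ (2 * h) *
          ((n : ℝ) ^ 2) ^ k) * η * |(WW B w i : ℝ)| := by
    intro i hi
    by_cases h0 : WW B w i = 0
    · rw [h0]; simp
    · have e3 := hz i hi h0
      have e4 : |((rhoP n h (numE n (X ^ k)) i : ℚ) : ℝ)| ≤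
          (n : ℝ) ^ 2 * 2 ^ (2 * h) * ((8 : ℝ) ^ n / n.factorial) ^ (2 * h) * ((n : ℝ) ^ 2) ^ k := by
        have := (Rat.cast_le (K := ℝ)).2 (rhoP_boundE n h k i hn)
        push_cast at this
        exact this
      rw [abs_mul, abs_mul]
      calc |((rhoP n h (numE n (X ^ k)) i : ℚ) : ℝ)| * |(WW B w i : ℝ)| * |z i - z' i|
          ≤ ((n : ℝ) ^ 2 * 2 ^ (2 * h) * ((8 : ℝ) ^ n / n.factorial) ^ (2 * h) *
            ((n : ℝ) ^ 2) ^ k) * |(WW B w i : ℝ)| * η := by gcongr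
        _ = _ := by ring
  refine (Finset.sum_le_sum e2).trans ?_
  rw [← Finset.mul_sum]
  unfold Ep Cw
  apply le_of_eq
  ring

end

end Pool.Agent.TH818.SA
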