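import Pool.Agent.TH818.SA.MA2
import Pool.Agent.TH818.SA.PertA
import Pool.Agent.TH818.SA.NV2A
import Pool.Agent.TH818.SA.Sub
import Pool.Agent.W165.OZ.FinA

/-!
# Simultaneous approximation of periodic Dirichlet series at even integers: the main argument
-/

open Polynomial Pool.Agent.H337R2 Filter Topology Pool.Agent.W165.OZ

namespace Pool.Agent.TH818.SA

noncomputable section

lemma moA_cast (a : ℕ → ℤ) (n h B : ℕ) (w : ℕ → ℤ) (z : ℕ → ℚ) (k : ℕ) :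
    moA (A := ℝ) a n h B w (fun i => ((z i : ℚ) : ℝ)) k = ((moA (A := ℚ) a n h B w z k : ℚ) : ℝ) := by
  unfold moA LaA
  rw [Rat.cast_sum]
  refine Finset.sum_congr rfl fun i _ => ?_
  simp only [eq_ratCast, Rat.cast_sub, Rat.cast_mul, Rat.cast_id, Rat.cast_intCast]

theorem t_corea (f : ℕ) (a : ℕ → ℤ) (hf : 1 ≤ f) (hper : ∀ u, a (u + f) = a u)
    (hau : ∃ u, Nat.Coprime u f ∧ a u ≠ 0) (h B D : ℕ) (hD : 1 ≤ D) (hB : 1 ≤ B) (hBh : 32 * D * (B * (B + 1)) ≤ h)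
    (hineq : D * (52 + 90 * D * ((B : ℝ) * (B + 1) / h * (1 + Real.log B))) ≤
      Real.log ((h : ℝ) / (16 * D * (B * (B + 1)))))
    (I : Finset ℕ) (hI : I.card < B / f) :
    ∃ q0 : ℕ, ∀ q : ℕ, q0 ≤ q → ¬ ∀ i, Even i → 2 ≤ i → i ≤ 2 * h → i ∉ I →
      ∃ p : ℤ, |(q : ℝ) * zra a i - p| < (q : ℝ) ^ (-(1 / (D : ℝ))) := by
  classical
  obtain ⟨w, hwf, hw, hWI⟩ := MAA.maa_weights t_we f B hf I hI
  obtain ⟨N, δ, c1, c2, τ, ω, hNod, h2N, hNO⟩ := NOA.t_noa B f a w hf hper hau hwf hw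
  have hN := hNod.hN
  have hDN : 64 * D * N ≤ h := by
    have e1 : 32 * D * (2 * N) ≤ 32 * D * (B * (B + 1)) := Nat.mul_le_mul_left _ h2N
    have e2 : 32 * D * (2 * N) = 64 * D * N := by ring
    omega
  have hh : 1 ≤ h := by
    have : 1 * 1 ≤ D * N := Nat.mul_le_mul hD hN
    have : 64 * (D * N) ≤ h := by rw [← mul_assoc]; exact hDN
    omega
  have hc2 : 0 < c2 := lt_of_lt_of_le (lt_of_lt_of_le hNod.hc1 (hNod.wlo 0)) (hNod.whi 0)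
  have hNr : (1 : ℝ) ≤ N := by exact_mod_cast hN
  have hDr : (1 : ℝ) ≤ D := by exact_mod_cast hD
  have hhr : (1 : ℝ) ≤ h := by exact_mod_cast hh
  have hBr : (1 : ℝ) ≤ B := by exact_mod_cast hB
  have hC : 0 < 4 * (N : ℝ) ^ 2 * c2 := by positivity
  -- the exponents
  obtain ⟨lam, hlam⟩ : ∃ lam, lam = Real.log ((h : ℝ) / (32 * D * N)) := ⟨_, rfl⟩
  obtain ⟨Y, hY⟩ : ∃ Y, Y = (B : ℝ) * (B + 1) / h * (1 + Real.log B) := ⟨_, rfl⟩
  have hlB : 0 ≤ Real.log B := Real.log_nonneg hBr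
  have hY0 : 0 ≤ Y := by rw [hY]; positivity
  have hlam2 : D * (52 + 90 * D * Y) ≤ lam := by
    rw [hY, hlam]
    refine hineq.trans (Real.log_le_log (by positivity) ?_)
    apply div_le_div_of_nonneg_left (by positivity) (by positivity)
    have : (2 * N : ℝ) ≤ (B : ℝ) * (B + 1) := by exact_mod_cast h2N
    have e1 : 16 * (D : ℝ) * (2 * N) ≤ 16 * D * ((B : ℝ) * (B + 1)) :=
      mul_le_mul_of_nonneg_left this (by positivity)
    linarith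
  obtain ⟨U, hU⟩ : ∃ U, U = UU N h B D := ⟨_, rfl⟩
  have hU' : U = (2 - 1 / (2 * (D : ℝ))) * lam - 19 - 45 * D * Y := by
    rw [hU, hlam, hY]
    rfl
  obtain ⟨hV, hU1⟩ := exp_cond D lam Y U hDr hU' hY0 hlam2
  obtain ⟨V, hVdef⟩ : ∃ V, V = (1 + 1 / (D : ℝ)) * U := ⟨_, rfl⟩
  rw [← hVdef, hlam] at hV
  -- the thresholds
  obtain ⟨m0, hm0⟩ := t_nvara N δ c1 c2 τ ω hNod
  obtain ⟨ν1, hν1⟩ := t_as2 N h B D (2 * (4 * (N : ℝ) ^ 2 * c2)) hN hB hD (by positivity) hDN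
  obtain ⟨ν2, hν2⟩ := t_es N h D hN hD hDN (Cw h B w + 1) (4 * (N : ℝ) ^ 2 * c2) V
    (by have := Cw_nonneg h B w; linarith) hC hV
  have hP : 0 < 4 * (D : ℝ) * h * U := by positivity
  have hlim := (Real.tendsto_log_atTop.comp tendsto_natCast_atTop_atTop).eventually_ge_atTop
    (4 * (D : ℝ) * h * U * (((m0 + ν1 + ν2 + B + 1 : ℕ)) : ℝ))
  obtain ⟨q1, hq1⟩ := eventually_atTop.1 hlim
  refine ⟨max q1 1, fun q hq hall => ?_⟩
  have hqq1 : 4 * (D : ℝ) * h * U * (((m0 + ν1 + ν2 + B + 1 : ℕ)) : ℝ) ≤ Real.log q :=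
    hq1 q ((le_max_left _ _).trans hq)
  have hq1' : 1 ≤ q := (le_max_right _ _).trans hq
  have hqr : (1 : ℝ) ≤ q := by exact_mod_cast hq1'
  have hqpos : (0 : ℝ) < q := by linarith
  -- the choice of `ν`
  obtain ⟨ν, hν⟩ : ∃ ν, ν = ⌈Real.log q / (4 * D * h * U)⌉₊ := ⟨_, rfl⟩
  have hνa : Real.log q / (4 * D * h * U) ≤ ν := by rw [hν]; exact Nat.le_ceil _
  have hνb : (ν : ℝ) < Real.log q / (4 * D * h * U) + 1 := by
    rw [hν]
    exact Nat.ceil_lt_add_one (div_nonneg (Real.log_nonneg hqr) hP.le)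
  have hνge : m0 + ν1 + ν2 + B + 1 ≤ ν := by
    have e1 : (((m0 + ν1 + ν2 + B + 1 : ℕ)) : ℝ) ≤ Real.log q / (4 * D * h * U) := by
      rw [le_div_iff₀ hP]
      linarith
    exact_mod_cast e1.trans hνa
  have hνc : Real.log q ≤ 4 * D * h * U * ν := by
    rw [div_le_iff₀ hP] at hνa
    linarith
  have hνd : 4 * D * h * U * (ν - 1) ≤ Real.log q := by
    have e1 : (ν : ℝ) - 1 ≤ Real.log q / (4 * D * h * U) := by linarith
    rw [le_div_iff₀ hP] at e1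
    linarith
  obtain ⟨n, hn⟩ : ∃ n, n = 4 * D * ν := ⟨_, rfl⟩
  obtain ⟨m, hm⟩ : ∃ m, m = h * ν := ⟨_, rfl⟩
  obtain ⟨M, hM⟩ : ∃ M, M = 2 * D * h * ν := ⟨_, rfl⟩
  have hnν : ν ≤ n := by
    rw [hn]
    have : 1 * ν ≤ (4 * D) * ν := Nat.mul_le_mul_right ν (by omega)
    omega
  have hmν : ν ≤ m := by
    rw [hm]
    have : 1 * ν ≤ h * ν := Nat.mul_le_mul_right ν hh
    omega
  have hn2 : 2 ≤ n := by
    rw [hn]
    have : 1 * 1 ≤ D * ν := Nat.mul_le_mul hD (by omega)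
    have : 4 * D * ν = 4 * (D * ν) := by ring
    omega
  have hne : Even n := ⟨2 * D * ν, by rw [hn]; ring⟩
  have hmM : m ≤ M := by
    have e1 : M = 2 * D * m := by rw [hM, hm]; ring
    rw [e1]
    have : 1 * m ≤ (2 * D) * m := Nat.mul_le_mul_right m (by omega)
    omega
  have hMh : 2 * M = h * n := by rw [hM, hn]; ring
  have hmn : 16 * N * n ≤ m := by
    rw [hm, hn]
    calc 16 * N * (4 * D * ν) = 64 * D * N * ν := by ring
      _ ≤ h * ν := Nat.mul_le_mul_right ν hDN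
  -- the rational approximations
  obtain ⟨η, hη⟩ : ∃ η : ℝ, η = (q : ℝ) ^ (-(1 + 1 / (D : ℝ))) := ⟨_, rfl⟩
  have hη0 : 0 < η := by rw [hη]; exact Real.rpow_pos_of_pos hqpos _
  have hrat : ∀ i, ∃ p : ℤ, (Even i → 2 ≤ i → i ≤ 2 * h → i ∉ I →
      |(q : ℝ) * zra a i - p| < (q : ℝ) ^ (-(1 / (D : ℝ)))) ∧
      (¬ (Even i ∧ 2 ≤ i ∧ i ≤ 2 * h ∧ i ∉ I) → p = 0) := by
    intro i
    by_cases hc : Even i ∧ 2 ≤ i ∧ i ≤ 2 * h ∧ i ∉ I
    · obtain ⟨p, hp⟩ := hall i hc.1 hc.2.1 hc.2.2.1 hc.2.2.2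
      exact ⟨p, fun _ _ _ _ => hp, fun hx => absurd hc hx⟩
    · exact ⟨0, fun a b c d => absurd ⟨a, b, c, d⟩ hc, fun _ => rfl⟩
  choose p hp1 hp0 using hrat
  obtain ⟨z, hz⟩ : ∃ z : ℕ → ℚ, z = fun i => (p i : ℚ) / q := ⟨_, rfl⟩
  have hqz : ∀ i, ∃ a : ℤ, (q : ℚ) * z i = a := by
    intro i
    refine ⟨p i, ?_⟩
    rw [hz]
    have : (q : ℚ) ≠ 0 := by
      have : 0 < q := hq1'
      positivity
    field_simp
  have hclose : ∀ i ∈ Finset.Icc 1 (2 * h), WW B w i ≠ 0 → |((z i : ℚ) : ℝ) - zza a i| ≤ η := by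
    intro i hi hWi
    have hi2 := (Finset.mem_Icc.1 hi).2
    have hiI : i ∉ I := fun hmem => hWi (hWI i hmem)
    by_cases hc : Even i ∧ 2 ≤ i
    · have e1 := hp1 i hc.1 hc.2 hi2 hiI
      have e2 : zza a i = zra a i := by
        unfold zza
        rw [if_pos hc]
      rw [e2, hz]
      push_cast
      have e3 : (p i : ℝ) / q - zra a i = -(((q : ℝ) * zra a i - p i) / q) := by
        field_simp
        ring
      rw [e3, abs_neg, abs_div, abs_of_pos hqpos, div_le_iff₀ hqpos, hη]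
      have e4 : (q : ℝ) ^ (-(1 + 1 / (D : ℝ))) * q = (q : ℝ) ^ (-(1 / (D : ℝ))) := by
        conv_lhs => rw [← Real.rpow_one (q : ℝ), ← Real.rpow_mul hqpos.le, ← Real.rpow_add hqpos]
        congr 1
        ring
      rw [e4]
      exact e1.le
    · have e1 : p i = 0 := hp0 i fun hx => hc ⟨hx.1, hx.2.1⟩
      have e2 : zza a i = 0 := by
        unfold zza
        rw [if_neg hc]
      rw [e2, hz]
      simp only
      rw [e1]
      simp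
      exact hη0.le
  -- the moments
  have hMom : MomE n h τ ω (moA (A := ℝ) a n h B w (zza a)) := by
    intro k hk
    obtain ⟨hs, hv⟩ := za_rm n h B f a w hn2 hne hh hf hper hwf k hk
    have h8 := hNO (fun t => RvE n h t * yv n t ^ k) hs
    rw [← hv] at h8
    exact h8
  have hpert := moA_pert a n h B (by omega) w (fun i => ((z i : ℚ) : ℝ)) (zza a) η hclose
  have hEp0 : 0 ≤ Ep n h B w η := Ep_nonneg n h B w hη0.le
  -- the size of the perturbation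
  have hlη : Real.log η ≤ -(V * (h * (n - 4 * D))) := by
    rw [hη, Real.log_rpow hqpos]
    have e1 : V * ((h : ℝ) * (n - 4 * D)) = (1 + 1 / (D : ℝ)) * (4 * D * h * U * (ν - 1)) := by
      rw [hVdef, hn]
      push_cast
      ring
    rw [e1]
    have e2 : (1 + 1 / (D : ℝ)) * (4 * D * h * U * (ν - 1)) ≤ (1 + 1 / (D : ℝ)) * Real.log q :=
      mul_le_mul_of_nonneg_left hνd (by positivity)
    linarith
  have hes := hν2 ν (by omega) n m M hn hm hM η hη0 hlη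
  have hEsmall : Ep n h B w η * 16 ^ m * MM N m ^ (4 * M) ≤ 4 * (N : ℝ) ^ 2 * c2 := by
    refine le_trans ?_ hes
    have hMM : 0 ≤ MM N m := le_trans zero_le_one (AR.MM_one N m)
    unfold Ep
    gcongr
    linarith
  obtain ⟨r, hr1, hr2, hr3, hr4⟩ := hm0 m (by omega) n M h (by omega) hh hmn hmM hMh _ hMom
    (moA (A := ℝ) a n h B w (fun i => ((z i : ℚ) : ℝ))) (Ep n h B w η) hEp0 hpert hEsmall
  have hDH : DH (moA (A := ℝ) a n h B w (fun i => ((z i : ℚ) : ℝ))) r =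
      ((DH (moA (A := ℚ) a n h B w z) r : ℚ) : ℝ) := by
    rw [← ma_DH_cast]
    congr 1
    funext k
    exact moA_cast a n h B w z k
  have hr3' : DH (moA (A := ℚ) a n h B w z) r ≠ 0 := by
    intro h8
    apply hr3
    rw [hDH, h8]
    simp
  have e1 := za_pr a n h B w z q hq1' hqz hn2 hne hh hB (by omega) r (by omega) hr3'
  have e1' : (1 : ℝ) ≤ |DH (moA (A := ℝ) a n h B w (fun i => ((z i : ℚ) : ℝ))) r| *
      ((q : ℝ) ^ r * (∏ i ∈ Finset.range r, (sc n h B i : ℝ) ^ 2) * (PPn n h B : ℝ)) := by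
    rw [hDH]
    have h8 : ((1 : ℚ) : ℝ) ≤ ((|DH (moA (A := ℚ) a n h B w z) r| *
      ((q : ℚ) ^ r * (∏ i ∈ Finset.range r, sc n h B i ^ 2) * (PPn n h B : ℚ)) : ℚ) : ℝ) := by
      exact_mod_cast e1
    push_cast at h8
    exact h8
  have hnn : (0 : ℝ) ≤ (q : ℝ) ^ r * (∏ i ∈ Finset.range r, (sc n h B i : ℝ) ^ 2) *
      (PPn n h B : ℝ) := by
    have : (0 : ℝ) ≤ ∏ i ∈ Finset.range r, (sc n h B i : ℝ) ^ 2 :=
      Finset.prod_nonneg fun i _ => sq_nonneg _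
    positivity
  have e4 : (1 : ℝ) ≤ Arc N n h (2 * (4 * (N : ℝ) ^ 2 * c2)) r *
      ((q : ℝ) ^ r * (∏ i ∈ Finset.range r, (sc n h B i : ℝ) ^ 2) * (PPn n h B : ℝ)) :=
    e1'.trans (mul_le_mul_of_nonneg_right hr4 hnn)
  have e5 := Real.log_nonneg e4
  have e6 := hν1 ν (by omega) n m M hn hm hM r hr1 hr2 q hq1' (by
    rw [← hU]
    refine hνc.trans (le_of_eq ?_)
    rw [hn]
    push_cast
    ring)
  linarith

/-- simultaneous approximation -/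
theorem t_maina (f : ℕ) (a : ℕ → ℤ) (hf : 1 ≤ f) (hper : ∀ u, a (u + f) = a u)
    (hau : ∃ u, Nat.Coprime u f ∧ a u ≠ 0) (h B D : ℕ) (hD : 1 ≤ D) (hB : 1 ≤ B) (hBh : 32 * D * (B * (B + 1)) ≤ h)
    (hineq : D * (52 + 90 * D * ((B : ℝ) * (B + 1) / h * (1 + Real.log B))) ≤
      Real.log ((h : ℝ) / (16 * D * (B * (B + 1))))) :
    ∃ q0 : ℕ, ∀ q : ℕ, q0 ≤ q → ∃ I : Finset ℕ, B / f ≤ I.card ∧ ∀ i ∈ I, 2 ≤ i ∧ i ≤ 2 * h ∧ Even i ∧
      ∀ p : ℤ, (q : ℝ) ^ (-(1 / (D : ℝ))) ≤ |(q : ℝ) * zra a i - p| := by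
  classical
  have h1 : ∀ I : Finset ℕ, ∃ q0 : ℕ, I.card < B / f → ∀ q : ℕ, q0 ≤ q → ¬ ∀ i, Even i → 2 ≤ i →
      i ≤ 2 * h → i ∉ I → ∃ p : ℤ, |(q : ℝ) * zra a i - p| < (q : ℝ) ^ (-(1 / (D : ℝ))) := by
    intro I
    by_cases hI : I.card < B / f
    · obtain ⟨q0, hq0⟩ := t_corea f a hf hper hau h B D hD hB hBh hineq I hI
      exact ⟨q0, fun _ => hq0⟩
    · exact ⟨0, fun h => absurd h hI⟩
  choose g hg using h1
  refine ⟨(Finset.Icc 2 (2 * h)).powerset.sup g, fun q hq => ?_⟩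
  obtain ⟨I, hI⟩ : ∃ I : Finset ℕ, I = (Finset.Icc 2 (2 * h)).filter (fun i => Even i ∧
    ∀ p : ℤ, (q : ℝ) ^ (-(1 / (D : ℝ))) ≤ |(q : ℝ) * zra a i - p|) := ⟨_, rfl⟩
  have hmem : ∀ i, i ∈ I ↔ (2 ≤ i ∧ i ≤ 2 * h) ∧ Even i ∧
      ∀ p : ℤ, (q : ℝ) ^ (-(1 / (D : ℝ))) ≤ |(q : ℝ) * zra a i - p| := by
    intro i
    rw [hI, Finset.mem_filter, Finset.mem_Icc]
  refine ⟨I, ?_, fun i hi => ?_⟩
  · by_contra hcon
    push Not at hcon
    have h2 : I ∈ (Finset.Icc 2 (2 * h)).powerset := by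
      rw [Finset.mem_powerset, hI]
      exact Finset.filter_subset _ _
    have h3 := hg I hcon q ((Finset.le_sup (f := g) h2).trans hq)
    apply h3
    intro i ho h3 h4 hiI
    by_contra hno
    push Not at hno
    exact hiI ((hmem i).2 ⟨⟨h3, h4⟩, ho, hno⟩)
  · obtain ⟨a, b, c⟩ := (hmem i).1 hi
    exact ⟨a.1, a.2, b, c⟩


lemma large2 (K : ℝ) : ∃ s1 : ℕ, ∀ s : ℕ, s1 ≤ s → 0 < Real.log (Real.log s) ∧
    K * Real.log (Real.log s) ≤ Real.sqrt (s * Real.log (Real.log s) / Real.log s) := by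
  have h1 : Tendsto (fun s : ℕ => Real.log (Real.log (s : ℝ))) atTop atTop :=
    Real.tendsto_log_atTop.comp (Real.tendsto_log_atTop.comp tendsto_natCast_atTop_atTop)
  have h4 : ∀ᶠ s : ℕ in atTop, 1 ≤ Real.log (Real.log (s : ℝ)) := h1.eventually_ge_atTop 1
  have h2 : ∀ᶠ s : ℕ in atTop, K ^ 2 * Real.log s * Real.log s ≤ s := by
    have h1 := (Real.isLittleO_pow_log_id_atTop (n := 2)).bound
      (show (0 : ℝ) < 1 / (K ^ 2 + 1) by positivity)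
    have h2 := (tendsto_natCast_atTop_atTop (R := ℝ)).eventually h1
    filter_upwards [h2] with s hs
    have hs' : ‖Real.log (s : ℝ) ^ 2‖ ≤ 1 / (K ^ 2 + 1) * ‖(s : ℝ)‖ := by simpa using hs
    rw [Real.norm_eq_abs, Real.norm_eq_abs, abs_of_nonneg (by positivity : (0 : ℝ) ≤ (s : ℝ)),
      abs_of_nonneg (sq_nonneg _), one_div_mul_eq_div, le_div_iff₀ (by positivity)] at hs'
    nlinarith [sq_nonneg (Real.log (s : ℝ))]
  have h5 : ∀ᶠ s : ℕ in atTop, 1 ≤ Real.log (s : ℝ) :=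
    (Real.tendsto_log_atTop.comp tendsto_natCast_atTop_atTop).eventually_ge_atTop 1
  obtain ⟨s1, hs1⟩ := eventually_atTop.1 ((h4.and h2).and h5)
  refine ⟨s1, fun s hs => ?_⟩
  obtain ⟨⟨a1, a2⟩, a3⟩ := hs1 s hs
  refine ⟨by linarith, ?_⟩
  have hL2 : Real.log (Real.log s) ≤ Real.log s := by
    have := Real.log_le_sub_one_of_pos (show 0 < Real.log s by linarith)
    linarith
  apply Real.le_sqrt_of_sq_le
  rw [le_div_iff₀ (by linarith)]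
  have e1 : (K * Real.log (Real.log s)) ^ 2 * Real.log s =
      (K ^ 2 * Real.log (Real.log s) * Real.log s) * Real.log (Real.log s) := by ring
  rw [e1]
  apply mul_le_mul_of_nonneg_right _ (by linarith)
  refine le_trans ?_ a2
  have : K ^ 2 * Real.log (Real.log s) ≤ K ^ 2 * Real.log s := mul_le_mul_of_nonneg_left hL2 (by positivity)
  exact mul_le_mul_of_nonneg_right this (by linarith)

/-- **Simultaneous approximation of periodic Dirichlet series at even integers.** -/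
theorem t_finala : ∀ f : ℕ, 1 ≤ f → ∃ s0 : ℕ, ∀ s ≥ s0, ∀ a : ℕ → ℤ,
    (∀ u, a (u + f) = a u) → (∃ u, Nat.Coprime u f ∧ a u ≠ 0) → ∀ D : ℕ, 1 ≤ D →
    (D : ℝ) ≤ (1 / 1000) * Real.log (Real.log s) → ∃ q0 : ℕ, ∀ q : ℕ, q0 ≤ q →
    (1 / 2000) / (f * D) * Real.sqrt (s * Real.log (Real.log s) / Real.log s) ≤
      (Set.ncard {i : ℕ | 2 ≤ i ∧ i ≤ s ∧ Even i ∧ ∀ p : ℤ, (q : ℝ) ^ (-(1 / (D : ℝ))) ≤
        |(q : ℝ) * (∑' n : ℕ, (a (n + 1) : ℝ) / ((n : ℝ) + 1) ^ i) - p|} : ℝ) := by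
  intro f hf
  obtain ⟨s0, hs0⟩ := t_fi2
  obtain ⟨s1, hs1⟩ := large2 (2 * f)
  have hf0 : (0 : ℝ) < f := by exact_mod_cast hf
  refine ⟨max s0 s1, fun s hs a hper hau D hD hDL => ?_⟩
  obtain ⟨h, B, h1, h2, h3, h4, h5⟩ := hs0 s ((le_max_left _ _).trans hs) D hD hDL
  obtain ⟨h6, h7⟩ := hs1 s ((le_max_right _ _).trans hs)
  obtain ⟨q0, hq0⟩ := t_maina f a hf hper hau h B D hD h2 h3 h5
  have hD0 : (0 : ℝ) < D := by exact_mod_cast hD
  obtain ⟨S, hS⟩ : ∃ S, S = Real.sqrt (s * Real.log (Real.log s) / Real.log s) := ⟨_, rfl⟩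
  rw [← hS] at h4 h7
  have h8 : (2 * f : ℝ) ≤ B := by
    have e1 : 1000 * (D : ℝ) * (2 * f) ≤ S := by
      refine le_trans ?_ h7
      have : 1000 * (D : ℝ) ≤ Real.log (Real.log s) := by linarith
      calc 1000 * (D : ℝ) * (2 * f) ≤ Real.log (Real.log s) * (2 * f) :=
            mul_le_mul_of_nonneg_right this (by positivity)
        _ = _ := by ring
    refine le_trans ?_ h4
    rw [div_div, div_mul_eq_mul_div, le_div_iff₀ (by positivity)]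
    linarith
  refine ⟨q0, fun q hq => ?_⟩
  rw [← hS]
  obtain ⟨I, hI, hI2⟩ := hq0 q hq
  have h9 : (B : ℝ) / f ≤ (B / f : ℕ) + 1 := by
    rw [div_le_iff₀ hf0]
    have := Nat.lt_div_mul_add (a := B) (b := f) (by omega)
    have h10 : B ≤ (B / f + 1) * f := by
      have e : (B / f + 1) * f = B / f * f + f := by ring
      omega
    exact_mod_cast h10
  have h11 : (1 / 2000) / (f * D) * S ≤ (B / f : ℕ) := by
    have e1 : (1 / 2000) / (f * D) * S ≤ (B : ℝ) / f / 2 := by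
      calc (1 / 2000) / (f * D) * S = ((1 / 1000) / D * S) / f / 2 := by
            field_simp
            ring
        _ ≤ (B : ℝ) / f / 2 := by gcongr
    have e2 : 2 ≤ (B : ℝ) / f := by
      rw [le_div_iff₀ hf0]; exact h8
    linarith
  refine h11.trans ?_
  have hfin : {i : ℕ | 2 ≤ i ∧ i ≤ s ∧ Even i ∧ ∀ p : ℤ, (q : ℝ) ^ (-(1 / (D : ℝ))) ≤
        |(q : ℝ) * (∑' n : ℕ, (a (n + 1) : ℝ) / ((n : ℝ) + 1) ^ i) - p|}.Finite :=
    (Set.finite_Iic s).subset fun i hi => hi.2.1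
  have hsub : (I : Set ℕ) ⊆ {i : ℕ | 2 ≤ i ∧ i ≤ s ∧ Even i ∧ ∀ p : ℤ, (q : ℝ) ^ (-(1 / (D : ℝ))) ≤
        |(q : ℝ) * (∑' n : ℕ, (a (n + 1) : ℝ) / ((n : ℝ) + 1) ^ i) - p|} := by
    intro i hi
    obtain ⟨a1, a2, a3, a4⟩ := hI2 i hi
    exact ⟨a1, a2.trans h1, a3, a4⟩
  have h12 := Set.ncard_le_ncard hsub hfin
  rw [Set.ncard_coe_finset] at h12
  exact_mod_cast hI.trans h12

/-- **Values outside finite-dimensional subspaces.** -/
theorem t_suba : ∀ f : ℕ, 1 ≤ f → ∃ s0 : ℕ, ∀ s ≥ s0, ∀ a : ℕ → ℤ,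
    (∀ u, a (u + f) = a u) → (∃ u, Nat.Coprime u f ∧ a u ≠ 0) → ∀ D : ℕ, 1 ≤ D →
    (D : ℝ) ≤ (1 / 2000) * Real.log (Real.log s) →
    ∀ V : Submodule ℚ ℝ, FiniteDimensional ℚ V → Module.finrank ℚ V ≤ D →
    (1 / 4000) / (f * D) * Real.sqrt (s * Real.log (Real.log s) / Real.log s) ≤
      (Set.ncard {i : ℕ | 2 ≤ i ∧ i ≤ s ∧ Even i ∧
        (∑' n : ℕ, (a (n + 1) : ℝ) / ((n : ℝ) + 1) ^ i) ∉ V} : ℝ) := by
  classical
  intro f hf
  obtain ⟨s0, hs0⟩ := t_finala f hf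
  refine ⟨s0, fun s hs a hper hau D hD hDL V hV hVD => ?_⟩
  have hDr : (1 : ℝ) ≤ D := by exact_mod_cast hD
  have hf0 : (0 : ℝ) < f := by exact_mod_cast hf
  have h1 : ((D + 1 : ℕ) : ℝ) ≤ (1 / 1000) * Real.log (Real.log s) := by
    push_cast
    linarith
  obtain ⟨q0, hq0⟩ := hs0 s hs a hper hau (D + 1) (by omega) h1
  obtain ⟨J, hJ⟩ : ∃ J : Finset ℕ, J = (Finset.Icc 2 s).filter (fun i => Even i ∧
    (∑' n : ℕ, (a (n + 1) : ℝ) / ((n : ℝ) + 1) ^ i) ∈ V) := ⟨_, rfl⟩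
  obtain ⟨q, hqq0, hq⟩ := sim_sub V D hVD J (fun i => ∑' n : ℕ, (a (n + 1) : ℝ) / ((n : ℝ) + 1) ^ i)
    (fun i hi => by
      rw [hJ, Finset.mem_filter] at hi
      exact hi.2.2) q0
  have h2 := hq0 q hqq0
  have h3 : (1 / 4000) / (f * D) * Real.sqrt (s * Real.log (Real.log s) / Real.log s) ≤
      (1 / 2000) / (f * ((D + 1 : ℕ) : ℝ)) * Real.sqrt (s * Real.log (Real.log s) / Real.log s) := by
    apply mul_le_mul_of_nonneg_right _ (Real.sqrt_nonneg _)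
    push_cast
    rw [div_le_div_iff₀ (by positivity) (by positivity)]
    have : (f : ℝ) * (D + 1) ≤ f * (2 * D) := mul_le_mul_of_nonneg_left (by linarith) hf0.le
    linarith
  refine (h3.trans h2).trans ?_
  have hfin : {i : ℕ | 2 ≤ i ∧ i ≤ s ∧ Even i ∧
      (∑' n : ℕ, (a (n + 1) : ℝ) / ((n : ℝ) + 1) ^ i) ∉ V}.Finite :=
    (Set.finite_Iic s).subset fun i hi => hi.2.1
  have hsub : {i : ℕ | 2 ≤ i ∧ i ≤ s ∧ Even i ∧ ∀ p : ℤ, (q : ℝ) ^ (-(1 / ((D + 1 : ℕ) : ℝ))) ≤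
      |(q : ℝ) * (∑' n : ℕ, (a (n + 1) : ℝ) / ((n : ℝ) + 1) ^ i) - p|} ⊆
      {i : ℕ | 2 ≤ i ∧ i ≤ s ∧ Even i ∧ (∑' n : ℕ, (a (n + 1) : ℝ) / ((n : ℝ) + 1) ^ i) ∉ V} := by
    rintro i ⟨a1, a2, a3, a4⟩
    refine ⟨a1, a2, a3, fun hmem => ?_⟩
    have hiJ : i ∈ J := by
      rw [hJ, Finset.mem_filter, Finset.mem_Icc]
      exact ⟨⟨a1, a2⟩, a3, hmem⟩
    obtain ⟨p, hp⟩ := hq i hiJ
    have h4 := a4 p
    push_cast at h4
    linarith
  exact_mod_cast Set.ncard_le_ncard hsub hfin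

end

end Pool.Agent.TH818.SA
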