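import Pool.Agent.W165.OZ.CB
import Pool.Agent.W165.OZ.MA

/-!
# Simultaneous approximation of odd zeta values: the perturbation of the moments

If the zeta values are replaced by rational numbers at distance `≤ η`, the `k`-th moment of the linear form
changes by at most `η · const · n² · (8^n/n!)^(2h) · (n²)^k`.
-/

open Polynomial Pool.Agent.H337R2 Filter Topology Pool.Agent.W165.OZ

namespace Pool.Agent.TH818.SA

noncomputable section

open CB

lemma AB_yp (n k : ℕ) (hk : k < n) : AB ((n : ℚ) ^ 2) (TS (-(k : ℚ)) (yp n)) := by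
  unfold yp
  rw [map_mul, TS_X, TS_lin]
  refine ((AB.linX _).mul (AB.linX _)).mono ?_
  have h2 : (k : ℚ) + 1 ≤ n := by exact_mod_cast hk
  have h3 : (0 : ℚ) ≤ k := Nat.cast_nonneg k
  rw [abs_neg, abs_of_nonneg h3, abs_of_nonneg (by linarith)]
  nlinarith

lemma AB_VV (n h k : ℕ) (hk : k < n) :
    AB (((8 : ℚ) ^ n / n.factorial) ^ (2 * h)) (VV ((sP n).erase k) (mP h) (-(k : ℚ))) := by
  unfold VV
  have h1 : AB (∏ m ∈ (Finset.range n).erase k, (2 / |-(k : ℚ) + m|) ^ (2 * h))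
      (∏ m ∈ (sP n).erase k, (Pool.Agent.H337R2.iv (-(k : ℚ) + m)) ^ mP h m) := by
    apply AB.prod
    intro m hm
    apply AB.pow
    apply AB.iv
    have h1 : m ≠ k := Finset.ne_of_mem_erase hm
    have h2 : (-(k : ℤ) + m) ≠ 0 := by
      intro h
      apply h1
      omega
    have h3 := Int.one_le_abs h2
    have h4 : ((1 : ℤ) : ℚ) ≤ ((|-(k : ℤ) + m| : ℤ) : ℚ) := by exact_mod_cast h3
    push_cast at h4
    exact h4
  refine h1.mono ?_
  rw [Finset.prod_pow]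
  have h2 := fact_bound n k hk
  have h3 : (0 : ℚ) ≤ ∏ m ∈ (Finset.range n).erase k, 2 / |-(k : ℚ) + m| :=
    Finset.prod_nonneg fun m _ => by positivity
  refine pow_le_pow_left₀ h3 ?_ _
  rw [le_div_iff₀ (by positivity)]
  linarith

lemma pa_bound (n h e k i : ℕ) (hk : k < n) :
    |pa (sP n) (mP h) (num n (X ^ e)) k i| ≤
      2 ^ (2 * h) * ((n : ℚ) * ((n : ℚ) ^ 2) ^ e * ((8 : ℚ) ^ n / n.factorial) ^ (2 * h)) := by
  have hAB : AB ((n : ℚ) * ((n : ℚ) ^ 2) ^ e * ((8 : ℚ) ^ n / n.factorial) ^ (2 * h))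
      (TS (-(k : ℚ)) (num n (X ^ e)) * VV ((sP n).erase k) (mP h) (-(k : ℚ))) := by
    refine AB.mul ?_ (AB_VV n h k hk)
    unfold num
    rw [Polynomial.pow_comp, Polynomial.X_comp, map_mul, map_pow]
    exact (AB_ll n k hk).mul ((AB_yp n k hk).pow e)
  have hnn := hAB.nonneg
  unfold pa
  split_ifs
  · unfold pfc
    refine (hAB.coeff_le _).trans ?_
    apply mul_le_mul_of_nonneg_right _ hnn
    apply pow_le_pow_right₀ (by norm_num)
    have hmP : mP h k = 2 * h := rfl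
    omega
  · rw [abs_zero]
    positivity

lemma rhoP_bound (n h e i : ℕ) :
    |rhoP n h (num n (X ^ e)) i| ≤
      (n : ℚ) ^ 2 * 2 ^ (2 * h) * ((8 : ℚ) ^ n / n.factorial) ^ (2 * h) * ((n : ℚ) ^ 2) ^ e := by
  unfold rhoP
  refine (Finset.abs_sum_le_sum_abs _ _).trans ?_
  refine (Finset.sum_le_sum fun k hk => pa_bound n h e k i (Finset.mem_range.1 hk)).trans ?_
  rw [Finset.sum_const, Finset.card_range, nsmul_eq_mul]
  apply le_of_eq
  ring

/-- the constant in the perturbation bound -/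
def Cw (h B : ℕ) (w : ℕ → ℤ) : ℝ := 2 ^ (2 * h) * ∑ i ∈ Finset.Icc 1 (2 * h), |(WW B w i : ℝ)|

lemma Cw_nonneg (h B : ℕ) (w : ℕ → ℤ) : 0 ≤ Cw h B w :=
  mul_nonneg (by positivity) (Finset.sum_nonneg fun _ _ => abs_nonneg _)

/-- the size of the perturbation -/
def Ep (n h B : ℕ) (w : ℕ → ℤ) (η : ℝ) : ℝ :=
  η * Cw h B w * (n : ℝ) ^ 2 * ((8 : ℝ) ^ n / n.factorial) ^ (2 * h)

lemma Ep_nonneg (n h B : ℕ) (w : ℕ → ℤ) {η : ℝ} (hη : 0 ≤ η) : 0 ≤ Ep n h B w η := by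
  unfold Ep
  have := Cw_nonneg h B w
  positivity

theorem mo_pert (n h B : ℕ) (w : ℕ → ℤ) (z z' : ℕ → ℝ) (η : ℝ)
    (hz : ∀ i ∈ Finset.Icc 1 (2 * h), WW B w i ≠ 0 → |z i - z' i| ≤ η) (k : ℕ) :
    |mo n h B w z k - mo n h B w z' k| ≤ Ep n h B w η * ((n : ℝ) ^ 2) ^ k := by
  have e1 : mo n h B w z k - mo n h B w z' k =
      ∑ i ∈ Finset.Icc 1 (2 * h), ((rhoP n h (num n (X ^ k)) i : ℚ) : ℝ) * (WW B w i : ℝ) *
        (z i - z' i) := by
    unfold mo La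
    rw [← Finset.sum_sub_distrib]
    refine Finset.sum_congr rfl fun i _ => ?_
    simp only [eq_ratCast, Rat.cast_mul, Rat.cast_intCast]
    ring
  rw [e1]
  refine (Finset.abs_sum_le_sum_abs _ _).trans ?_
  have e2 : ∀ i ∈ Finset.Icc 1 (2 * h), |((rhoP n h (num n (X ^ k)) i : ℚ) : ℝ) * (WW B w i : ℝ) *
        (z i - z' i)| ≤ ((n : ℝ) ^ 2 * 2 ^ (2 * h) * ((8 : ℝ) ^ n / n.factorial) ^ (2 * h) *
          ((n : ℝ) ^ 2) ^ k) * η * |(WW B w i : ℝ)| := by
    intro i hi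
    by_cases h0 : WW B w i = 0
    · rw [h0]; simp
    · have e3 := hz i hi h0
      have e4 : |((rhoP n h (num n (X ^ k)) i : ℚ) : ℝ)| ≤
          (n : ℝ) ^ 2 * 2 ^ (2 * h) * ((8 : ℝ) ^ n / n.factorial) ^ (2 * h) * ((n : ℝ) ^ 2) ^ k := by
        have := (Rat.cast_le (K := ℝ)).2 (rhoP_bound n h k i)
        push_cast at this
        exact this
      rw [abs_mul, abs_mul]
      calc |((rhoP n h (num n (X ^ k)) i : ℚ) : ℝ)| * |(WW B w i : ℝ)| * |z i - z' i|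
          ≤ ((n : ℝ) ^ 2 * 2 ^ (2 * h) * ((8 : ℝ) ^ n / n.factorial) ^ (2 * h) *
            ((n : ℝ) ^ 2) ^ k) * |(WW B w i : ℝ)| * η := by gcongr
        _ = _ := by ring
  refine (Finset.sum_le_sum e2).trans ?_
  rw [← Finset.mul_sum]
  unfold Ep Cw
  apply le_of_eq
  ring

/-! ### The functional `Lf` -/

lemma Lf_sub_seq (μ μ' : ℕ → ℝ) (P : ℝ[X]) :
    Lf (fun k => μ' k - μ k) P = Lf μ' P - Lf μ P := by
  rw [Lf_apply _ P (P.natDegree + 1) (Nat.lt_succ_self _),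
    Lf_apply _ P (P.natDegree + 1) (Nat.lt_succ_self _),
    Lf_apply _ P (P.natDegree + 1) (Nat.lt_succ_self _), ← Finset.sum_sub_distrib]
  exact Finset.sum_congr rfl fun k _ => by ring

lemma Lf_mul_lin (ε : ℕ → ℝ) (y : ℝ) (P : ℝ[X]) :
    Lf ε ((X - C y) * P) = Lf (fun k => ε (k + 1) - y * ε k) P := by
  have h1 : ∀ k, Lf ε ((X - C y) * X ^ k) = Lf (fun k => ε (k + 1) - y * ε k) (X ^ k) := by
    intro k
    rw [sub_mul, ← pow_succ', map_sub, Lf_X_pow, Lf_X_pow, ← smul_eq_C_mul, map_smul, Lf_X_pow,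
      smul_eq_mul]
  have h2 : P = ∑ k ∈ Finset.range (P.natDegree + 1), P.coeff k • (X ^ k : ℝ[X]) := by
    conv_lhs => rw [P.as_sum_range]
    refine Finset.sum_congr rfl fun k _ => ?_
    rw [← C_mul_X_pow_eq_monomial, smul_eq_C_mul]
  rw [h2, Finset.mul_sum, map_sum, map_sum]
  refine Finset.sum_congr rfl fun k _ => ?_
  rw [mul_smul_comm, map_smul, map_smul, h1]

/-- `|L(P)| ≤ E ∏ (b + |y_l|)` for `P = ∏ (X - y_l)` -/
lemma Lf_prod_bound (b : ℝ) {ι : Type*} (s : Finset ι) (y : ι → ℝ) :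
    ∀ (ε : ℕ → ℝ) (E : ℝ), (∀ k, |ε k| ≤ E * b ^ k) → 
    |Lf ε (∏ l ∈ s, (X - C (y l)))| ≤ E * ∏ l ∈ s, (b + |y l|) := by
  classical
  induction s using Finset.induction_on with
  | empty =>
    intro ε E hε
    have := hε 0
    have e : Lf ε 1 = ε 0 := by
      have := Lf_X_pow ε 0
      rwa [pow_zero] at this
    simp only [Finset.prod_empty, e]
    simpa using this
  | insert a s ha ih =>
    intro ε E hε
    rw [Finset.prod_insert ha, Finset.prod_insert ha, Lf_mul_lin]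
    refine (ih _ (E * (b + |y a|)) fun k => ?_).trans (le_of_eq (by ring))
    have e1 := hε (k + 1)
    have e2 := hε k
    calc |ε (k + 1) - y a * ε k| ≤ |ε (k + 1)| + |y a * ε k| := abs_sub _ _
      _ ≤ E * b ^ (k + 1) + |y a| * (E * b ^ k) := by
        rw [abs_mul]
        exact add_le_add e1 (mul_le_mul_of_nonneg_left e2 (abs_nonneg _))
      _ = E * (b + |y a|) * b ^ k := by ring

end

end Pool.Agent.TH818.SA
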